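import Pool.Agent.Lib.MP_1e09a3_nt.CF.FieldMain73

/-!
Lemmas on simple extensions of differential fields.
-/

open MvPolynomial

namespace Pool.Agent.Lib.MP_1e09a3_nt.FE

open CF

/-- Extension of the derivation to a simple algebraic extension. -/
theorem exists_res_adjoin (Ω K : Type) [Field Ω] [Field K] [CharZero K] [Algebra K Ω]
    (D : Derivation ℤ Ω Ω) (D₀ : Derivation ℤ K K)
    (hD₀ : ∀ x, algebraMap K Ω (D₀ x) = D (algebraMap K Ω x)) (y : Ω) (hyint : IsIntegral K y) :
    ∃ D₁ : Derivation ℤ (IntermediateField.adjoin K {y}) (IntermediateField.adjoin K {y}),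
      ∀ x, algebraMap (IntermediateField.adjoin K {y}) Ω (D₁ x) = D (algebraMap _ Ω x) := by
  set K₁ := IntermediateField.adjoin K {y} with hK₁
  have hyK : y ∈ K₁ := IntermediateField.mem_adjoin_simple_self K y
  have hDy : D y ∈ K₁ := by
    set m := minpoly K y with hm
    have hsep : Polynomial.aeval y (Polynomial.derivative m) ≠ 0 :=
      (minpoly.irreducible hyint).separable.aeval_derivative_ne_zero (minpoly.aeval K y)
    have h0 : Polynomial.aeval y m = 0 := minpoly.aeval K y
    have key : ∀ q : Polynomial K, D (Polynomial.aeval y q) -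
        Polynomial.aeval y (Polynomial.derivative q) * D y ∈ K₁ := by
      intro q
      induction q using Polynomial.induction_on' with
      | add p q hp hq =>
        have := K₁.add_mem hp hq
        simp only [map_add]
        convert this using 1
        ring
      | monomial n a =>
        rw [Polynomial.aeval_monomial, Derivation.leibniz, Derivation.leibniz_pow,
          Polynomial.derivative_monomial, Polynomial.aeval_monomial]
        have e1 : algebraMap K Ω a • (n • y ^ (n - 1) • D y) + y ^ n • D (algebraMap K Ω a) -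
            algebraMap K Ω (a * (n : K)) * y ^ (n - 1) * D y = y ^ n * D (algebraMap K Ω a) := by
          simp only [smul_eq_mul, nsmul_eq_mul, map_mul, map_natCast]
          ring
        rw [e1, ← hD₀]
        exact K₁.mul_mem (pow_mem hyK _) (K₁.algebraMap_mem _)
    have h1 := key m
    rw [h0, map_zero, zero_sub] at h1
    have h2 : D y = -(Polynomial.aeval y (Polynomial.derivative m))⁻¹ *
        -(Polynomial.aeval y (Polynomial.derivative m) * D y) := by
      field_simp
    rw [h2]
    refine K₁.mul_mem (K₁.neg_mem (K₁.inv_mem ?_)) h1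
    have : Polynomial.aeval y (Polynomial.derivative m) =
        algebraMap K₁ Ω (Polynomial.aeval (⟨y, hyK⟩ : K₁) (Polynomial.derivative m)) := by
      rw [← Polynomial.aeval_algebraMap_apply]
      rfl
    rw [this]
    exact (Polynomial.aeval (⟨y, hyK⟩ : K₁) (Polynomial.derivative m)).2
  have hDK₁ : ∀ w ∈ K₁, D w ∈ K₁ := by
    set T : IntermediateField K Ω :=
      { carrier := {w | w ∈ K₁ ∧ D w ∈ K₁}
        mul_mem' := by
          rintro a b ⟨ha, ha'⟩ ⟨hb, hb'⟩
          refine ⟨K₁.mul_mem ha hb, ?_⟩
          rw [Derivation.leibniz, smul_eq_mul, smul_eq_mul]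
          exact K₁.add_mem (K₁.mul_mem ha hb') (K₁.mul_mem hb ha')
        one_mem' := ⟨K₁.one_mem, by rw [Derivation.map_one_eq_zero]; exact K₁.zero_mem⟩
        add_mem' := by
          rintro a b ⟨ha, ha'⟩ ⟨hb, hb'⟩
          refine ⟨K₁.add_mem ha hb, ?_⟩
          rw [map_add]
          exact K₁.add_mem ha' hb'
        zero_mem' := ⟨K₁.zero_mem, by rw [map_zero]; exact K₁.zero_mem⟩
        inv_mem' := by
          rintro a ⟨ha, ha'⟩
          refine ⟨K₁.inv_mem ha, ?_⟩
          rw [Derivation.leibniz_inv, smul_eq_mul]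
          exact K₁.mul_mem (K₁.neg_mem (pow_mem (K₁.inv_mem ha) _)) ha'
        algebraMap_mem' := by
          intro a
          refine ⟨K₁.algebraMap_mem a, ?_⟩
          rw [← hD₀]
          exact K₁.algebraMap_mem _ } with hT
    have h1 : K₁ ≤ T := by
      rw [hK₁, IntermediateField.adjoin_le_iff]
      rintro w hw
      rw [Set.mem_singleton_iff] at hw
      subst hw
      exact ⟨hyK, hDy⟩
    exact fun w hw => (h1 hw).2
  exact exists_res D K₁ (fun w => ⟨⟨D w, hDK₁ w w.2⟩, rfl⟩)

/-- An element all of whose traces of powers are algebraic over `ℂ(z)` is algebraic over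
`ℂ(z)`. -/
theorem trace_finish (hta : TraceAlgStmt) (Ω K : Type) [Field Ω] [Algebra ℂ Ω] [Field K]
    [CharZero K] [Algebra K Ω] (y : Ω) (hyint : IsIntegral K y) (z : Ω)
    (htrace : ∀ k : ℕ, IsAlgebraic (IntermediateField.adjoin ℂ {z})
      (algebraMap K Ω (Algebra.trace K (IntermediateField.adjoin K {y})
        ((⟨y, IntermediateField.mem_adjoin_simple_self K y⟩ :
          IntermediateField.adjoin K {y}) ^ k)))) :
    IsAlgebraic (IntermediateField.adjoin ℂ {z}) y := by
  set K₁ := IntermediateField.adjoin K {y} with hK₁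
  have hfin : Module.Finite K K₁ := IntermediateField.adjoin.finiteDimensional hyint
  set y₁ : K₁ := ⟨y, IntermediateField.mem_adjoin_simple_self K y⟩ with hy₁
  set L₀ := IntermediateField.adjoin ℂ {z} with hL₀
  set k : Subfield K := (algebraicClosure L₀ Ω).toSubfield.comap (algebraMap K Ω) with hk
  have : IsScalarTower k K K₁ := IsScalarTower.of_algebraMap_eq fun _ => rfl
  have hyk : IsAlgebraic k y₁ := by
    refine hta k K K₁ y₁ fun n => ?_
    have hmem : Algebra.trace K K₁ (y₁ ^ n) ∈ k := by
      rw [hk, Subfield.mem_comap]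
      exact mem_algebraicClosure_iff.2 (htrace n)
    exact isAlgebraic_algebraMap (⟨_, hmem⟩ : k)
  have hyL : IsAlgebraic (algebraicClosure L₀ Ω) y := by
    obtain ⟨p, hp0, hp⟩ := hyk
    let ψ : k →+* algebraicClosure L₀ Ω :=
      { toFun := fun w => ⟨algebraMap K Ω w, w.2⟩
        map_one' := Subtype.ext (map_one _)
        map_mul' := fun _ _ => Subtype.ext (map_mul _ _ _)
        map_zero' := Subtype.ext (map_zero _)
        map_add' := fun _ _ => Subtype.ext (map_add _ _ _) }
    refine ⟨p.map ψ, (Polynomial.map_ne_zero_iff ψ.injective).2 hp0, ?_⟩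
    have h1 := congrArg (algebraMap K₁ Ω) hp
    rw [map_zero, Polynomial.aeval_def, Polynomial.hom_eval₂] at h1
    rw [Polynomial.aeval_def, Polynomial.eval₂_map]
    exact h1
  exact hyL.restrictScalars L₀

end Pool.Agent.Lib.MP_1e09a3_nt.FE
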