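import Pool.Agent.Lib.MP_1e09a3_nt.FE.Stmts73

/-!
MP_1e09a3_nt, Fourier expansions, module F3: the core argument.
-/

set_option autoImplicit false

open scoped PowerSeries
open Polynomial

namespace Pool.Agent.Lib.MP_1e09a3_nt.FE

/-! ### Ring homomorphisms on coefficients -/

/-- apply a ring homomorphism to the coefficients -/
noncomputable def mapH96 {R S : Type} [CommRing R] [CommRing S] (f : R →+* S) :
    LaurentSeries R →+* LaurentSeries S where
  toFun u := HahnSeries.map u f
  map_one' := by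
    exact HahnSeries.map_one (Γ := ℤ) f.toMonoidWithZeroHom
  map_mul' x y := HahnSeries.map_mul (f : R →ₙ+* S)
  map_zero' := by
    ext n
    simp
  map_add' x y := by
    ext n
    simp

theorem mapH_coeff96 {R S : Type} [CommRing R] [CommRing S] (f : R →+* S) (u : LaurentSeries R)
    (n : ℤ) : (mapH96 f u).coeff n = f (u.coeff n) := rfl

theorem mapH_sub_inj96 {Q : Type} [Field Q] (B : Subring Q) :
    Function.Injective (mapH96 B.subtype) := by
  intro u v h
  ext n
  have := congrArg (fun w : LaurentSeries Q => w.coeff n) h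
  exact this

theorem mem_range96 {Q : Type} [Field Q] (B : Subring Q) (u : LaurentSeries Q) :
    u ∈ (mapH96 B.subtype).range ↔ ∀ n, u.coeff n ∈ B := by
  constructor
  · rintro ⟨w, rfl⟩ n
    rw [mapH_coeff96]
    exact (w.coeff n).2
  · intro h
    refine ⟨⟨fun n => ⟨u.coeff n, h n⟩, u.isPWO_support.mono ?_⟩, ?_⟩
    · intro n hn
      rw [Function.mem_support] at hn
      rw [HahnSeries.mem_support]
      intro h0
      apply hn
      exact Subtype.ext h0
    · ext n
      rfl

/-- the elements whose expansions have coefficients in `B` -/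
noncomputable def KB96 {Q K : Type} [Field Q] [Field K] (θ : K →+* LaurentSeries Q)
    (B : Subring Q) : Subring K := (mapH96 B.subtype).range.comap θ

theorem mem_KB96 {Q K : Type} [Field Q] [Field K] (θ : K →+* LaurentSeries Q)
    (B : Subring Q) (κ : K) : κ ∈ KB96 θ B ↔ ∀ n, (θ κ).coeff n ∈ B := by
  unfold KB96
  rw [Subring.mem_comap, mem_range96]

/-- the expansion as a series over `B` -/
theorem exp96 {Q K : Type} [Field Q] [Field K] (θ : K →+* LaurentSeries Q) (B : Subring Q) :
    ∃ Φ : KB96 θ B →+* LaurentSeries B, ∀ κ : KB96 θ B, mapH96 B.subtype (Φ κ) = θ κ := by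
  have h : ∀ κ : KB96 θ B, ∃ w, mapH96 B.subtype w = θ κ := fun κ => κ.2
  choose F hF using h
  have hi := mapH_sub_inj96 B
  refine ⟨{ toFun := F, map_one' := ?_, map_mul' := ?_, map_zero' := ?_, map_add' := ?_ }, hF⟩
  · apply hi
    rw [hF, map_one]
    simp
  · intro x y
    apply hi
    rw [hF, map_mul, hF, hF]
    simp
  · apply hi
    rw [hF, map_zero]
    simp
  · intro x y
    apply hi
    rw [hF, map_add, hF, hF]
    simp

/-! ### The `p`-th derivative -/

theorem der_coeff96 {Q : Type} [Field Q] [CharZero Q] (δ : Derivation ℤ Q Q) (c : Q) (hc : δ c = 0)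
    (B : Subring Q) (hB : DivClosed δ B) (hcB : c ∈ B)
    (D : Derivation ℤ (LaurentSeries Q) (LaurentSeries Q))
    (hD : ∀ (u : LaurentSeries Q) (n : ℤ), (D u).coeff n = δ (u.coeff n) + c * n * u.coeff n)
    (u : LaurentSeries Q) (hu : ∀ n, u.coeff n ∈ B) (k : ℤ) (p : ℕ) (hp : p.Prime) :
    ∃ (r z : B), ((⇑D)^[p] u).coeff k =
      (c * k) ^ p * u.coeff k + p * r + p.factorial * z := by
  have hδB : ∀ x ∈ B, δ x ∈ B := by
    intro x hx
    have := hB x hx 1
    simpa using this
  have hck : c * k ∈ B := B.mul_mem hcB (intCast_mem B k)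
  have hδck : δ (c * k) = 0 := by
    rw [Derivation.leibniz, hc, smul_zero, add_zero]
    have : δ (k : Q) = 0 := by simp
    rw [this, smul_zero]
  let x : AddMonoid.End B :=
    { toFun := fun b => ⟨δ b, hδB _ b.2⟩
      map_zero' := by
        apply Subtype.ext
        simp
      map_add' := fun a b => by
        apply Subtype.ext
        simp }
  let e : B := ⟨c * k, hck⟩
  let y : AddMonoid.End B := AddMonoidHom.mulLeft e
  have hx : ∀ b : B, ((x b : B) : Q) = δ b := fun b => rfl
  have hy : ∀ b : B, y b = e * b := fun b => rfl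
  have hxy : Commute x y := by
    apply AddMonoidHom.ext
    intro b
    apply Subtype.ext
    change δ ((c * k) * (b : Q)) = (c * k) * δ (b : Q)
    rw [Derivation.leibniz, hδck, smul_zero, add_zero, smul_eq_mul]
  have hit : ∀ n : ℕ, ((⇑D)^[n] u).coeff k = (((x + y) ^ n) ⟨u.coeff k, hu k⟩ : B) := by
    intro n
    induction n with
    | zero => rfl
    | succ n ih =>
      rw [Function.iterate_succ_apply', hD, ih, pow_succ']
      rfl
  have hxn : ∀ n : ℕ, ∀ b : B, (((x ^ n) b : B) : Q) = (⇑δ)^[n] b := by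
    intro n
    induction n with
    | zero => intro b; rfl
    | succ n ih =>
      intro b
      rw [Function.iterate_succ_apply', ← ih, pow_succ']
      rfl
  have hyn : ∀ n : ℕ, ∀ b : B, (y ^ n) b = e ^ n * b := by
    intro n
    induction n with
    | zero =>
      intro b
      rw [pow_zero, pow_zero, one_mul]
      rfl
    | succ n ih =>
      intro b
      rw [pow_succ', pow_succ', mul_assoc, ← ih]
      rfl
  obtain ⟨w, hw⟩ := hxy.exists_add_pow_prime_eq hp
  have hz := hB (u.coeff k) (hu k) p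
  have hf : (p.factorial : Q) ≠ 0 := by exact_mod_cast p.factorial_ne_zero
  refine ⟨(x * y * w) ⟨u.coeff k, hu k⟩, ⟨(⇑δ)^[p] (u.coeff k) / (p.factorial : Q), hz⟩, ?_⟩
  rw [hit p, hw]
  have e1 : (x ^ p + y ^ p + (p : AddMonoid.End B) * x * y * w) ⟨u.coeff k, hu k⟩ =
      (x ^ p) ⟨u.coeff k, hu k⟩ + (y ^ p) ⟨u.coeff k, hu k⟩ +
        p • (x * y * w) ⟨u.coeff k, hu k⟩ := by
    rw [mul_assoc (p : AddMonoid.End B), mul_assoc (p : AddMonoid.End B)]
    rfl
  rw [e1, hyn, nsmul_eq_mul, Subring.coe_add, Subring.coe_add, hxn, Subring.coe_mul,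
    Subring.coe_pow, Subring.coe_mul, Subring.coe_natCast, mul_div_cancel₀ _ hf]
  ring

/-! ### The theorem -/

theorem core_96 (hPi : PiStmt) : CoreStmt := by
  intro Q _ _ δ c hc hδc hdiv D hD K K' _ _ _ _ θ hFG D₀ hθD t r x hx k hk
  by_contra hb
  set b := (θ t).coeff k with hbdef
  -- the finitely generated ring
  choose F hF1 hF2 using hFG
  set T : Set Q := {c, (c * k * b)⁻¹} ∪ F t ∪
    ⋃ j : Fin r, ⋃ i ∈ Finset.range ((minpoly K (x j)).natDegree + 1),
      F ((minpoly K (x j)).coeff i) with hT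
  have hTfin : T.Finite := by
    refine Set.Finite.union (Set.Finite.union (Set.toFinite _) (hF1 t)) ?_
    refine Set.finite_iUnion fun j => ?_
    exact Set.Finite.biUnion (Finset.finite_toSet _) fun i _ => hF1 _
  obtain ⟨T', hT'fin, hTT', hdivB⟩ := hdiv T hTfin
  obtain ⟨p, k₀, _, _, ⟨hp⟩, ⟨π⟩⟩ := hPi Q T' hT'fin
  set B : Subring Q := Zg T' with hB
  have hsub : ∀ S : Set Q, S ⊆ T → Zg S ≤ B := fun S hS =>
    (Subring.closure_mono hS).trans hTT'
  have hcB : c ∈ B := hTT' (Subring.subset_closure (by simp [hT]))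
  have hiB : (c * k * b)⁻¹ ∈ B := hTT' (Subring.subset_closure (by simp [hT]))
  have htB : ∀ n, (θ t).coeff n ∈ B := fun n =>
    hsub (F t) (fun a ha => Or.inl (Or.inr ha)) (hF2 t n)
  have hmB : ∀ (j : Fin r) (i : ℕ), (minpoly K (x j)).coeff i ∈ KB96 θ B := by
    intro j i
    rw [mem_KB96]
    intro n
    by_cases hi : i ∈ Finset.range ((minpoly K (x j)).natDegree + 1)
    · refine hsub (F ((minpoly K (x j)).coeff i)) ?_ (hF2 _ n)
      intro a ha
      right
      exact Set.mem_iUnion.2 ⟨j, Set.mem_biUnion (by exact_mod_cast hi) ha⟩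
    · rw [Finset.mem_range, not_lt] at hi
      rw [Polynomial.coeff_eq_zero_of_natDegree_lt (by omega), map_zero]
      simp
  have hpf : p.Prime := hp
  have hW0 : CharZero (LaurentSeries Q) :=
    charZero_of_injective_algebraMap (algebraMap Q (LaurentSeries Q)).injective
  have hK0 : CharZero K := by
    refine ⟨fun m n h => ?_⟩
    have h2 : θ (m : K) = θ (n : K) := by rw [h]
    rw [map_natCast, map_natCast] at h2
    exact_mod_cast h2
  have hpK : (p.factorial : K) ≠ 0 := by exact_mod_cast p.factorial_ne_zero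
  -- the generators are integral
  have hxint : ∀ j, IsIntegral (KB96 θ B) (x j) := by
    intro j
    have hm := minpoly.monic (Algebra.IsIntegral.isIntegral (R := K) (x j))
    have hco : (↑(minpoly K (x j)).coeffs : Set K) ⊆ KB96 θ B := by
      intro a ha
      rw [Finset.mem_coe, Polynomial.mem_coeffs_iff] at ha
      obtain ⟨i, _, rfl⟩ := ha
      exact hmB j i
    refine ⟨(minpoly K (x j)).toSubring _ hco, (Polynomial.monic_toSubring _ _ hco).2 hm, ?_⟩
    have e : algebraMap (KB96 θ B) K' = (algebraMap K K').comp (KB96 θ B).subtype := rfl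
    rw [e, ← Polynomial.eval₂_map, Polynomial.map_toSubring]
    exact minpoly.aeval K (x j)
  have hadj : ∀ w ∈ Algebra.adjoin ℤ (Set.range x), IsIntegral (KB96 θ B) w := by
    intro w hw
    induction hw using Algebra.adjoin_induction with
    | mem w hw =>
      obtain ⟨j, rfl⟩ := hw
      exact hxint j
    | algebraMap n =>
      have : algebraMap ℤ K' n = algebraMap (KB96 θ B) K' (n : KB96 θ B) := by simp
      rw [this]
      exact isIntegral_algebraMap
    | add a b _ _ ha hb => exact ha.add hb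
    | mul a b _ _ ha hb => exact ha.mul hb
  set v : K := (⇑D₀)^[p] t with hv
  have hu' : IsIntegral (KB96 θ B) (algebraMap K K' (v / (p.factorial : K))) := by
    have := hadj _ (hx p)
    rw [map_div₀, map_natCast]
    exact this
  have hu : IsIntegral (KB96 θ B) (v / (p.factorial : K)) :=
    (isIntegral_algebraMap_iff (algebraMap K K').injective).1 hu'
  -- the expansion of `v`
  have hθv : ∀ n : ℕ, θ ((⇑D₀)^[n] t) = (⇑D)^[n] (θ t) := by
    intro n
    induction n with
    | zero => rfl
    | succ n ih => rw [Function.iterate_succ_apply', Function.iterate_succ_apply', hθD, ih]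
  have hδB : ∀ a ∈ B, δ a ∈ B := by
    intro a ha
    have := hdivB a ha 1
    simpa using this
  have hDB : ∀ m : ℕ, ∀ n, ((⇑D)^[m] (θ t)).coeff n ∈ B := by
    intro m
    induction m with
    | zero => exact htB
    | succ m ih =>
      intro n
      rw [Function.iterate_succ_apply', hD]
      exact B.add_mem (hδB _ (ih n)) (B.mul_mem (B.mul_mem hcB (intCast_mem B n)) (ih n))
  have hvB : v ∈ KB96 θ B := by
    rw [mem_KB96, hv, hθv]
    exact hDB p
  obtain ⟨Φ, hΦ⟩ := exp96 θ B
  set Pq : KB96 θ B →+* LaurentSeries k₀ := (mapH96 π).comp Φ with hPq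
  have hPqp : Pq ((p.factorial : ℕ) : KB96 θ B) = 0 := by
    rw [map_natCast]
    have : ((p.factorial : ℕ) : k₀) = 0 := by
      rw [CharP.cast_eq_zero_iff k₀ p]
      exact Nat.dvd_factorial hpf.pos le_rfl
    have h2 : ((p.factorial : ℕ) : LaurentSeries k₀) =
        algebraMap k₀ (LaurentSeries k₀) ((p.factorial : ℕ) : k₀) := by
      rw [map_natCast]
    rw [h2, this, map_zero]
  have hPqv : Pq ⟨v, hvB⟩ = 0 := by
    obtain ⟨P, hPm, hP0⟩ := hu
    have h1 := Polynomial.scaleRoots_eval₂_eq_zero (algebraMap (KB96 θ B) K)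
      (s := ((p.factorial : ℕ) : KB96 θ B)) hP0
    rw [map_natCast, mul_div_cancel₀ _ hpK] at h1
    have h2 : (P.scaleRoots ((p.factorial : ℕ) : KB96 θ B)).eval ⟨v, hvB⟩ = 0 := by
      apply (KB96 θ B).subtype_injective
      rw [map_zero, ← h1, Polynomial.eval, Polynomial.hom_eval₂]
      rfl
    have h3 := congrArg Pq h2
    rw [map_zero, Polynomial.eval, Polynomial.hom_eval₂, RingHom.comp_id,
      Polynomial.eval₂_eq_sum_range, Polynomial.natDegree_scaleRoots] at h3
    rw [Finset.sum_range_succ, Finset.sum_eq_zero] at h3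
    · rw [zero_add] at h3
      have h4 : (P.scaleRoots ((p.factorial : ℕ) : KB96 θ B)).coeff P.natDegree = 1 := by
        rw [Polynomial.coeff_scaleRoots_natDegree]
        exact hPm
      rw [h4, map_one, one_mul] at h3
      exact eq_zero_of_pow_eq_zero h3
    · intro i hi
      rw [Finset.mem_range] at hi
      rw [Polynomial.coeff_scaleRoots, map_mul, map_pow, hPqp, zero_pow (by omega), mul_zero,
        zero_mul]
  have hcoef : ∀ n, ∃ h : (θ v).coeff n ∈ B, (Pq ⟨v, hvB⟩).coeff n = π ⟨(θ v).coeff n, h⟩ := by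
    intro n
    have h1 : (θ v).coeff n = ((Φ ⟨v, hvB⟩).coeff n : B) := by
      rw [← hΦ ⟨v, hvB⟩]
      rfl
    refine ⟨h1 ▸ ((Φ ⟨v, hvB⟩).coeff n).2, ?_⟩
    have h2 : (⟨(θ v).coeff n, h1 ▸ ((Φ ⟨v, hvB⟩).coeff n).2⟩ : B) = (Φ ⟨v, hvB⟩).coeff n :=
      Subtype.ext h1
    rw [h2]
    rfl
  obtain ⟨h5, h6⟩ := hcoef k
  rw [hPqv, HahnSeries.coeff_zero] at h6
  obtain ⟨w, z, hwz⟩ := der_coeff96 δ c hδc B hdivB hcB D hD (θ t) htB k p hpf
  rw [← hθv p, ← hv] at hwz
  have h7 : (⟨(θ v).coeff k, h5⟩ : B) =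
      (⟨c, hcB⟩ * (k : B)) ^ p * ⟨b, htB k⟩ + p * w + p.factorial * z := by
    apply Subtype.ext
    rw [Subring.coe_add, Subring.coe_add, Subring.coe_mul, Subring.coe_pow, Subring.coe_mul,
      Subring.coe_mul, Subring.coe_mul, Subring.coe_natCast, Subring.coe_natCast,
      Subring.coe_intCast]
    exact hwz
  have hpk : (p : k₀) = 0 := CharP.cast_eq_zero k₀ p
  have hfk : (p.factorial : k₀) = 0 := by
    rw [CharP.cast_eq_zero_iff k₀ p]
    exact Nat.dvd_factorial hpf.pos le_rfl
  have hunit : (⟨c, hcB⟩ * (k : B) * ⟨b, htB k⟩) * ⟨(c * k * b)⁻¹, hiB⟩ = (1 : B) := by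
    apply Subtype.ext
    rw [Subring.coe_mul, Subring.coe_mul, Subring.coe_mul, Subring.coe_intCast]
    have hk' : (k : Q) ≠ 0 := by exact_mod_cast hk
    exact mul_inv_cancel₀ (mul_ne_zero (mul_ne_zero hc hk') hb)
  have h8 := congrArg π hunit
  rw [map_mul, map_mul, map_one] at h8
  have h9 : π (⟨c, hcB⟩ * (k : B)) ≠ 0 := by
    intro h
    rw [h] at h8
    simp at h8
  have h10 : π ⟨b, htB k⟩ ≠ 0 := by
    intro h
    rw [h] at h8
    simp at h8
  rw [h7, map_add, map_add, map_mul, map_mul, map_mul, map_pow, map_natCast, map_natCast, hpk, hfk,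
    zero_mul, zero_mul, add_zero, add_zero] at h6
  exact mul_ne_zero (pow_ne_zero _ h9) h10 h6.symm

end Pool.Agent.Lib.MP_1e09a3_nt.FE
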