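import Pool.Agent.Lib.MP_1e09a3_nt.FE.Stmts73
import Pool.Agent.Lib.MP_1e09a3_nt.CF.Tay73
import Pool.Agent.Lib.MP_1e09a3_nt.ExtDer

/-!
The field `ℂ(z)` with `d/dz`: finitely generated subrings are contained in finitely generated
subrings closed under the divided derivatives.
-/

set_option linter.style.haveILetI false

open Polynomial

namespace Pool.Agent.Lib.MP_1e09a3_nt.FE

open CF

theorem inv_coeff_mem {Q : Type} [Field Q] (B : Subring Q) (u : PowerSeries Q)
    (hu : ∀ n, PowerSeries.coeff n u ∈ B) (h0 : (PowerSeries.constantCoeff u)⁻¹ ∈ B) (n : ℕ) :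
    PowerSeries.coeff n u⁻¹ ∈ B := by
  induction n using Nat.strong_induction_on with
  | _ n ih =>
    rw [PowerSeries.coeff_inv]
    split_ifs with hn
    · exact h0
    · refine B.mul_mem (B.neg_mem h0) (B.sum_mem fun x _ => ?_)
      split_ifs with hx
      · exact B.mul_mem (hu _) (ih _ hx)
      · exact B.zero_mem

section

variable {Q : Type} [Field Q] [CharZero Q]

/-- the elements whose divided derivatives lie in `B` -/
noncomputable def divRing (δ : Derivation ℤ Q Q) (B : Subring Q) : Subring Q where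
  carrier := {x | ∀ n, PowerSeries.coeff n (tayHom δ (RingHom.id Q) x) ∈ B}
  mul_mem' := by
    intro a b ha hb n
    rw [map_mul, PowerSeries.coeff_mul]
    exact B.sum_mem fun x _ => B.mul_mem (ha _) (hb _)
  one_mem' := by
    intro n
    rw [map_one, PowerSeries.coeff_one]
    split_ifs
    · exact B.one_mem
    · exact B.zero_mem
  add_mem' := by
    intro a b ha hb n
    rw [map_add, map_add]
    exact B.add_mem (ha _) (hb _)
  zero_mem' := by
    intro n
    rw [map_zero, map_zero]
    exact B.zero_mem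
  neg_mem' := by
    intro a ha n
    rw [map_neg, map_neg]
    exact B.neg_mem (ha _)

theorem mem_divRing (δ : Derivation ℤ Q Q) (B : Subring Q) (x : Q) :
    x ∈ divRing δ B ↔ ∀ n : ℕ, (⇑δ)^[n] x / (n.factorial : Q) ∈ B := by
  change (∀ n, PowerSeries.coeff n (tayHom δ (RingHom.id Q) x) ∈ B) ↔ _
  refine forall_congr' fun n => ?_
  rw [tayHom_apply, coeff_tay, RingHom.id_apply]

theorem inv_mem_divRing (δ : Derivation ℤ Q Q) (B : Subring Q) {x : Q} (hx : x ∈ divRing δ B)
    (hx' : x⁻¹ ∈ B) (h0 : x ≠ 0) : x⁻¹ ∈ divRing δ B := by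
  intro n
  have h1 : tayHom δ (RingHom.id Q) x⁻¹ * tayHom δ (RingHom.id Q) x = 1 := by
    rw [← map_mul, inv_mul_cancel₀ h0, map_one]
  have h2 : PowerSeries.constantCoeff (tayHom δ (RingHom.id Q) x) = x := by
    rw [← PowerSeries.coeff_zero_eq_constantCoeff_apply, tayHom_apply, coeff_tay]
    simp
  rw [(PowerSeries.eq_inv_iff_mul_eq_one (by rw [h2]; exact h0)).2 h1]
  exact inv_coeff_mem B _ hx (by rw [h2]; exact hx') n

end

theorem cz_73 : CzStmt := by
  intro Q _ _ _
  classical
  have hinj : Function.Injective (algebraMap ℂ[X] Q) := IsFractionRing.injective _ _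
  haveI : CharZero Q := charZero_of_injective_algebraMap hinj
  haveI : Algebra.FormallySmooth ℂ[X] Q := .of_isLocalization (nonZeroDivisors _)
  let d : Derivation ℤ ℂ[X] Q := Derivation.mk' (AddMonoidHom.toIntLinearMap
    { toFun := fun p => algebraMap ℂ[X] Q (derivative p)
      map_zero' := by rw [map_zero, map_zero]
      map_add' := fun p q => by rw [map_add, map_add] }) (fun p q => by
        change algebraMap ℂ[X] Q (derivative (p * q)) = p • algebraMap ℂ[X] Q (derivative q) +
          q • algebraMap ℂ[X] Q (derivative p)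
        rw [derivative_mul, map_add, map_mul, map_mul, Algebra.smul_def, Algebra.smul_def]
        ring)
  obtain ⟨δ, hδ⟩ := exists_extension (C := ℤ) (A := ℂ[X]) (L := Q) d
  have hδ' : ∀ p : ℂ[X], δ (algebraMap ℂ[X] Q p) = algebraMap ℂ[X] Q (derivative p) := hδ
  refine ⟨δ, hδ', fun T hT => ?_⟩
  choose P h hh hPh using fun t : Q => IsFractionRing.div_surjective (A := ℂ[X]) t
  set cof : ℂ[X] → Set Q := fun p => ((fun j => algebraMap ℂ[X] Q (C (p.coeff j))) '' p.support)
    with hcof
  set T₁ : Set Q := ⋃ t ∈ T, (cof (P t) ∪ cof (h t)) with hT₁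
  set T' : Set Q := insert (algebraMap ℂ[X] Q X) (T₁ ∪
    ((fun t => (algebraMap ℂ[X] Q (h t))⁻¹) '' T)) with hT'
  have hcoffin : ∀ p, (cof p).Finite := fun p => (p.support.finite_toSet).image _
  have hT'fin : T'.Finite := by
    refine Set.Finite.insert _ (Set.Finite.union ?_ (hT.image _))
    exact hT.biUnion fun t _ => (hcoffin _).union (hcoffin _)
  have hXB : algebraMap ℂ[X] Q X ∈ divRing δ (Zg T') := by
    rw [mem_divRing]
    intro n
    rcases n with _ | n
    · have : algebraMap ℂ[X] Q X ∈ Zg T' := Subring.subset_closure (Set.mem_insert _ _)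
      simpa using this
    · rcases n with _ | n
      · rw [Function.iterate_one, hδ', derivative_X, map_one]
        simp
      · rw [Function.iterate_succ_apply, Function.iterate_succ_apply, hδ', derivative_X, map_one,
          Derivation.map_one_eq_zero]
        have : (⇑δ)^[n] (0 : Q) = 0 := Function.iterate_fixed (map_zero δ) n
        rw [this, zero_div]
        exact (Zg T').zero_mem
  have hcB : ∀ b : ℂ, algebraMap ℂ[X] Q (C b) ∈ Zg T' →
      algebraMap ℂ[X] Q (C b) ∈ divRing δ (Zg T') := by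
    intro b hb
    rw [mem_divRing]
    intro n
    rcases n with _ | n
    · simpa using hb
    · rw [Function.iterate_succ_apply, hδ', derivative_C, map_zero]
      have : (⇑δ)^[n] (0 : Q) = 0 := Function.iterate_fixed (map_zero δ) n
      rw [this, zero_div]
      exact (Zg T').zero_mem
  have hpB : ∀ p : ℂ[X], cof p ⊆ T' → algebraMap ℂ[X] Q p ∈ divRing δ (Zg T') := by
    intro p hp
    rw [p.as_sum_support_C_mul_X_pow, map_sum]
    refine Subring.sum_mem _ fun j hj => ?_
    rw [map_mul, map_pow]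
    exact Subring.mul_mem _ (hcB _ (Subring.subset_closure (hp ⟨j, hj, rfl⟩)))
      (Subring.pow_mem _ hXB _)
  have hle : divRing δ (Zg T') ≤ Zg T' := by
    intro x hx
    rw [mem_divRing] at hx
    simpa using hx 0
  have hPB : ∀ t ∈ T, algebraMap ℂ[X] Q (P t) ∈ divRing δ (Zg T') := by
    intro t ht
    refine hpB _ fun x hx => ?_
    refine Set.mem_insert_of_mem _ (Or.inl ?_)
    exact Set.mem_biUnion ht (Or.inl hx)
  have hhB : ∀ t ∈ T, algebraMap ℂ[X] Q (h t) ∈ divRing δ (Zg T') := by
    intro t ht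
    refine hpB _ fun x hx => ?_
    refine Set.mem_insert_of_mem _ (Or.inl ?_)
    exact Set.mem_biUnion ht (Or.inr hx)
  have hh0 : ∀ t, algebraMap ℂ[X] Q (h t) ≠ 0 := fun t =>
    (map_ne_zero_iff _ hinj).2 (nonZeroDivisors.ne_zero (hh t))
  have hhi : ∀ t ∈ T, (algebraMap ℂ[X] Q (h t))⁻¹ ∈ divRing δ (Zg T') := by
    intro t ht
    refine inv_mem_divRing δ _ (hhB t ht) ?_ (hh0 t)
    exact Subring.subset_closure (Set.mem_insert_of_mem _ (Or.inr ⟨t, ht, rfl⟩))
  have hTB : ∀ t ∈ T, t ∈ divRing δ (Zg T') := by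
    intro t ht
    have h1 : t = algebraMap ℂ[X] Q (P t) * (algebraMap ℂ[X] Q (h t))⁻¹ := by
      rw [← div_eq_mul_inv, hPh]
    rw [h1]
    exact Subring.mul_mem _ (hPB t ht) (hhi t ht)
  refine ⟨T', hT'fin, ?_, ?_⟩
  · rw [Subring.closure_le]
    exact fun t ht => hle (hTB t ht)
  · have hge : Zg T' ≤ divRing δ (Zg T') := by
      rw [Subring.closure_le]
      rintro x hx
      rcases hx with rfl | hx | ⟨t, ht, rfl⟩
      · exact hXB
      · rw [hT₁, Set.mem_iUnion₂] at hx
        obtain ⟨t, ht, hx⟩ := hx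
        have hxT' : x ∈ Zg T' := by
          refine Subring.subset_closure (Set.mem_insert_of_mem _ (Or.inl ?_))
          exact Set.mem_biUnion ht hx
        rcases hx with ⟨j, -, rfl⟩ | ⟨j, -, rfl⟩
        · exact hcB _ hxT'
        · exact hcB _ hxT'
      · exact hhi t ht
    intro x hx n
    exact (mem_divRing δ _ x).1 (hge hx) n

end Pool.Agent.Lib.MP_1e09a3_nt.FE
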