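import Pool.Agent.Lib.MP_1e09a3_nt.FE.Stmts73

/-!
MP_1e09a3_nt, Fourier expansions, module F4: admissible series as functions of `e^(cz)`.
-/

set_option autoImplicit false

open scoped PowerSeries Topology
open Filter

namespace Pool.Agent.Lib.MP_1e09a3_nt.FE

/-! ### The ring of admissible series -/

theorem adm_zero96 (ρ : ℝ) : Adm ρ 0 := by
  refine ⟨⟨∅, Set.finite_empty, fun n => by simp⟩, fun r _ _ => ?_⟩
  simp

theorem adm_one96 (ρ : ℝ) : Adm ρ 1 := by
  refine ⟨⟨∅, Set.finite_empty, fun n => ?_⟩, fun r _ _ => ?_⟩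
  · rw [PowerSeries.coeff_one]
    split_ifs
    · exact Subring.one_mem _
    · exact Subring.zero_mem _
  · refine summable_of_ne_finset_zero (s := {0}) fun n hn => ?_
    rw [Finset.mem_singleton] at hn
    rw [PowerSeries.coeff_one, if_neg hn]
    simp

theorem adm_add96 {ρ : ℝ} {G G' : PowerSeries ℂ} (h : Adm ρ G) (h' : Adm ρ G') :
    Adm ρ (G + G') := by
  obtain ⟨⟨T, hT, hTn⟩, hc⟩ := h
  obtain ⟨⟨T', hT', hTn'⟩, hc'⟩ := h'
  refine ⟨⟨T ∪ T', hT.union hT', fun n => ?_⟩, fun r h0 hr => ?_⟩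
  · rw [map_add]
    exact Subring.add_mem _ (Subring.closure_mono Set.subset_union_left (hTn n))
      (Subring.closure_mono Set.subset_union_right (hTn' n))
  · refine Summable.of_nonneg_of_le (fun n => by positivity) (fun n => ?_)
      ((hc r h0 hr).add (hc' r h0 hr))
    rw [map_add, ← add_mul]
    exact mul_le_mul_of_nonneg_right (norm_add_le _ _) (by positivity)

theorem adm_neg96 {ρ : ℝ} {G : PowerSeries ℂ} (h : Adm ρ G) : Adm ρ (-G) := by
  obtain ⟨⟨T, hT, hTn⟩, hc⟩ := h
  refine ⟨⟨T, hT, fun n => ?_⟩, fun r h0 hr => ?_⟩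
  · rw [map_neg]
    exact Subring.neg_mem _ (hTn n)
  · refine (hc r h0 hr).congr fun n => ?_
    rw [map_neg, norm_neg]

theorem adm_mul96 {ρ : ℝ} {G G' : PowerSeries ℂ} (h : Adm ρ G) (h' : Adm ρ G') :
    Adm ρ (G * G') := by
  obtain ⟨⟨T, hT, hTn⟩, hc⟩ := h
  obtain ⟨⟨T', hT', hTn'⟩, hc'⟩ := h'
  refine ⟨⟨T ∪ T', hT.union hT', fun n => ?_⟩, fun r h0 hr => ?_⟩
  · rw [PowerSeries.coeff_mul]
    exact Subring.sum_mem _ fun p _ => Subring.mul_mem _
      (Subring.closure_mono Set.subset_union_left (hTn _))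
      (Subring.closure_mono Set.subset_union_right (hTn' _))
  · have h1 : Summable fun n => ‖‖PowerSeries.coeff n G‖ * r ^ n‖ := by
      refine (hc r h0 hr).congr fun n => ?_
      rw [Real.norm_of_nonneg (by positivity)]
    have h2 : Summable fun n => ‖‖PowerSeries.coeff n G'‖ * r ^ n‖ := by
      refine (hc' r h0 hr).congr fun n => ?_
      rw [Real.norm_of_nonneg (by positivity)]
    have h3 := summable_norm_sum_mul_antidiagonal_of_summable_norm h1 h2
    refine Summable.of_nonneg_of_le (fun n => by positivity) (fun n => ?_) h3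
    rw [PowerSeries.coeff_mul]
    calc ‖∑ p ∈ Finset.HasAntidiagonal.antidiagonal n, PowerSeries.coeff p.1 G * PowerSeries.coeff p.2 G'‖ * r ^ n
        ≤ (∑ p ∈ Finset.HasAntidiagonal.antidiagonal n,
          ‖PowerSeries.coeff p.1 G‖ * ‖PowerSeries.coeff p.2 G'‖) * r ^ n := by
          gcongr
          refine (norm_sum_le _ _).trans (le_of_eq ?_)
          exact Finset.sum_congr rfl fun p _ => norm_mul _ _
      _ = ∑ p ∈ Finset.HasAntidiagonal.antidiagonal n, (‖PowerSeries.coeff p.1 G‖ * r ^ p.1) *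
          (‖PowerSeries.coeff p.2 G'‖ * r ^ p.2) := by
          rw [Finset.sum_mul]
          refine Finset.sum_congr rfl fun p hp => ?_
          rw [← Finset.HasAntidiagonal.mem_antidiagonal.1 hp, pow_add]
          ring
      _ ≤ _ := le_abs_self _

/-- the coefficients of `E d/dE` -/
theorem coeff_XD96 (G : PowerSeries ℂ) (n : ℕ) :
    PowerSeries.coeff n (PowerSeries.X * PowerSeries.derivative ℂ G) =
      n * PowerSeries.coeff n G := by
  cases n with
  | zero => simp
  | succ n =>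
    rw [PowerSeries.coeff_succ_X_mul, PowerSeries.coeff_derivative]
    push_cast
    ring

theorem adm_XD96 {ρ : ℝ} {G : PowerSeries ℂ} (h : Adm ρ G) :
    Adm ρ (PowerSeries.X * PowerSeries.derivative ℂ G) := by
  obtain ⟨⟨T, hT, hTn⟩, hc⟩ := h
  refine ⟨⟨T, hT, fun n => ?_⟩, fun r h0 hr => ?_⟩
  · rw [coeff_XD96]
    exact Subring.mul_mem _ (natCast_mem _ n) (hTn n)
  · set s := (r + ρ) / 2 with hs
    have hs0 : 0 < s := by
      rw [hs]
      linarith
    have hrs : r < s := by
      rw [hs]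
      linarith
    have hsρ : s < ρ := by
      rw [hs]
      linarith
    have hq : r / s < 1 := by
      rw [div_lt_one hs0]
      exact hrs
    have hlim := tendsto_self_mul_const_pow_of_lt_one (div_nonneg h0 hs0.le) hq
    obtain ⟨M, hM⟩ := hlim.bddAbove_range
    have hM' : ∀ n : ℕ, (n : ℝ) * (r / s) ^ n ≤ M := fun n => hM ⟨n, rfl⟩
    refine Summable.of_nonneg_of_le (fun n => by positivity) (fun n => ?_)
      ((hc s hs0.le hsρ).mul_left M)
    rw [coeff_XD96, norm_mul, Complex.norm_natCast]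
    calc (n : ℝ) * ‖PowerSeries.coeff n G‖ * r ^ n =
        ((n : ℝ) * (r / s) ^ n) * (‖PowerSeries.coeff n G‖ * s ^ n) := by
          rw [div_pow]
          field_simp
      _ ≤ M * (‖PowerSeries.coeff n G‖ * s ^ n) := by
          gcongr
          exact hM' n

/-- the ring of admissible series -/
noncomputable def admR96 (ρ : ℝ) : Subring (PowerSeries ℂ) where
  carrier := {G | Adm ρ G}
  mul_mem' h h' := adm_mul96 h h'
  one_mem' := adm_one96 ρ
  add_mem' h h' := adm_add96 h h'
  zero_mem' := adm_zero96 ρ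
  neg_mem' h := adm_neg96 h

/-! ### Values -/

theorem ev_summable96 {ρ : ℝ} (c : ℂ) {G : PowerSeries ℂ} (h : Adm ρ G) (z : ℂ)
    (hz : ‖Complex.exp (c * z)‖ < ρ) :
    Summable fun n => ‖PowerSeries.coeff n G * Complex.exp (c * z) ^ n‖ := by
  refine (h.conv _ (norm_nonneg _) hz).congr fun n => ?_
  rw [norm_mul, norm_pow]

theorem isOpen_U96 (c : ℂ) (r : ℝ) : IsOpen {z : ℂ | ‖Complex.exp (c * z)‖ < r} :=
  isOpen_lt (by fun_prop) continuous_const

theorem term_deriv96 (c a : ℂ) (n : ℕ) (z : ℂ) :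
    HasDerivAt (fun z : ℂ => a * Complex.exp (c * z) ^ n)
      (c * (n * a * Complex.exp (c * z) ^ n)) z := by
  have e : (fun z : ℂ => a * Complex.exp (c * z) ^ n) =
      fun z : ℂ => a * Complex.exp (n * (c * z)) := by
    funext z
    rw [Complex.exp_nat_mul]
  rw [e, ← Complex.exp_nat_mul]
  have h1 : HasDerivAt (fun z : ℂ => (n : ℂ) * (c * z)) ((n : ℂ) * (c * 1)) z :=
    ((hasDerivAt_id z).const_mul c).const_mul (n : ℂ)
  have h2 := (h1.cexp).const_mul a
  have e3 : c * (n * a * Complex.exp (n * (c * z))) =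
      a * (Complex.exp (n * (c * z)) * (n * (c * 1))) := by ring
  rw [e3]
  exact h2

theorem ev_deriv96 {ρ : ℝ} (c : ℂ) {G : PowerSeries ℂ} (h : Adm ρ G) (z : ℂ)
    (hz : ‖Complex.exp (c * z)‖ < ρ) :
    HasDerivAt (evE c G) (c * evE c (PowerSeries.X * PowerSeries.derivative ℂ G) z) z := by
  set r := (‖Complex.exp (c * z)‖ + ρ) / 2 with hr
  have hr1 : ‖Complex.exp (c * z)‖ < r := by
    rw [hr]
    linarith
  have hr2 : r < ρ := by
    rw [hr]
    linarith
  have hr0 : 0 ≤ r := (norm_nonneg _).trans hr1.le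
  have hu := h.conv r hr0 hr2
  have hU := isOpen_U96 c r
  have hf : ∀ n : ℕ, DifferentiableOn ℂ
      (fun z : ℂ => PowerSeries.coeff n G * Complex.exp (c * z) ^ n)
      {z : ℂ | ‖Complex.exp (c * z)‖ < r} := fun n w _ =>
    (term_deriv96 c _ n w).differentiableAt.differentiableWithinAt
  have hle : ∀ (n : ℕ) (w : ℂ), w ∈ {z : ℂ | ‖Complex.exp (c * z)‖ < r} →
      ‖PowerSeries.coeff n G * Complex.exp (c * w) ^ n‖ ≤ ‖PowerSeries.coeff n G‖ * r ^ n := by
    intro n w hw
    rw [norm_mul, norm_pow]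
    have hw' : ‖Complex.exp (c * w)‖ < r := hw
    gcongr
  have h1 := Complex.differentiableOn_tsum_of_summable_norm hu hf hU hle
  have h2 := Complex.hasSum_deriv_of_summable_norm hu hf hU hle hr1
  have h3 : DifferentiableAt ℂ (evE c G) z := h1.differentiableAt (hU.mem_nhds hr1)
  have h4 : deriv (evE c G) z = c * evE c (PowerSeries.X * PowerSeries.derivative ℂ G) z := by
    have h5 := h2.tsum_eq
    change _ = deriv (evE c G) z at h5
    rw [← h5]
    unfold evE
    rw [← tsum_mul_left]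
    refine tsum_congr fun n => ?_
    rw [(term_deriv96 c _ n z).deriv, coeff_XD96]
  rw [← h4]
  exact h3.hasDerivAt

theorem ev_96 : EvStmt := by
  intro ρ hρ c hc
  refine ⟨admR96 ρ, fun G => Iff.rfl, ?_, ?_, ?_⟩
  · intro G hG G' hG' z hz
    have h1 := ev_summable96 c hG z hz
    have h2 := ev_summable96 c hG' z hz
    constructor
    · unfold evE
      rw [← h1.of_norm.tsum_add h2.of_norm]
      refine tsum_congr fun n => ?_
      rw [map_add, add_mul]
    · unfold evE
      rw [tsum_mul_tsum_eq_tsum_sum_antidiagonal_of_summable_norm h1 h2]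
      refine tsum_congr fun n => ?_
      rw [PowerSeries.coeff_mul, Finset.sum_mul]
      refine Finset.sum_congr rfl fun p hp => ?_
      rw [← Finset.HasAntidiagonal.mem_antidiagonal.1 hp, pow_add]
      ring
  · intro G hG z hz
    exact (ev_deriv96 c hG z hz).differentiableAt.differentiableWithinAt
  · intro G hG
    exact ⟨adm_XD96 hG, fun z hz => (ev_deriv96 c hG z hz).deriv⟩

end Pool.Agent.Lib.MP_1e09a3_nt.FE
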