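import Pool.Agent.Lib.MP_1e09a3_nt.FE.Stmts73
import Pool.Agent.Lib.MP_1e09a3_nt.CF.FieldMain73

/-!
The differential field of the quotients of polynomials in `z` with admissible series as
coefficients.
-/

set_option linter.style.haveILetI false

open scoped PowerSeries
open Filter Topology

namespace Pool.Agent.Lib.MP_1e09a3_nt.FE

open CF

/-! ### quotient fields -/

/-- A domain with two embeddings into differential fields which induce the same derivation: the
quotient field. -/
theorem quot_field (P : Type) [CommRing P] [IsDomain P] (K : Type) [Field K] [Algebra P K]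
    [IsFractionRing P K] (Ω W : Type) [Field Ω] [Field W] (Δ : Derivation ℤ Ω Ω)
    (D : W → W) (hDm : ∀ a b, D (a * b) = a * D b + b * D a) (Φ : P →+* Ω) (Θ : P →+* W)
    (hΦ : Function.Injective Φ)
    (hΘ : Function.Injective Θ) (h : ∀ p, ∃ p', Δ (Φ p) = Φ p' ∧ D (Θ p) = Θ p') :
    ∃ (_ : Algebra K Ω) (D₀ : Derivation ℤ K K) (θ : K →+* W),
      (∀ p, algebraMap K Ω (algebraMap P K p) = Φ p) ∧ (∀ p, θ (algebraMap P K p) = Θ p) ∧
      (∀ κ, algebraMap K Ω (D₀ κ) = Δ (algebraMap K Ω κ)) ∧ ∀ κ, θ (D₀ κ) = D (θ κ) := by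
  let θ : K →+* W := IsFractionRing.lift hΘ
  let φ : K →+* Ω := IsFractionRing.lift hΦ
  letI : Algebra K Ω := φ.toAlgebra
  have hφ : ∀ p, algebraMap K Ω (algebraMap P K p) = Φ p := fun p =>
    IsFractionRing.lift_algebraMap hΦ p
  have hθ : ∀ p, θ (algebraMap P K p) = Θ p := fun p => IsFractionRing.lift_algebraMap hΘ p
  have hres : ∀ x : K, ∃ x' : K, algebraMap K Ω x' = Δ (algebraMap K Ω x) := by
    intro x
    obtain ⟨p, q, hq, hpq⟩ := IsFractionRing.div_surjective (A := P) x
    obtain ⟨p', hp', -⟩ := h p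
    obtain ⟨q', hq', -⟩ := h q
    have hq0 : Φ q ≠ 0 := (map_ne_zero_iff Φ hΦ).2 (nonZeroDivisors.ne_zero hq)
    refine ⟨(algebraMap P K p' - x * algebraMap P K q') / algebraMap P K q, ?_⟩
    have h1 : algebraMap K Ω x * Φ q = Φ p := by
      rw [← hpq, map_div₀, hφ, hφ, div_mul_cancel₀ _ hq0]
    have h2 := congrArg Δ h1
    rw [Derivation.leibniz, smul_eq_mul, smul_eq_mul, hp', hq'] at h2
    rw [map_div₀, map_sub, map_mul, hφ, hφ, hφ, div_eq_iff hq0, ← h2]
    ring
  obtain ⟨D₀, hD₀⟩ := exists_res Δ K hres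
  refine ⟨inferInstance, D₀, θ, hφ, hθ, hD₀, fun κ => ?_⟩
  have hP : ∀ p, θ (D₀ (algebraMap P K p)) = D (θ (algebraMap P K p)) := by
    intro p
    obtain ⟨p', hp', hp''⟩ := h p
    have h1 : D₀ (algebraMap P K p) = algebraMap P K p' := by
      apply (algebraMap K Ω).injective
      rw [hD₀, hφ, hφ, hp']
    rw [h1, hθ, hθ, hp'']
  obtain ⟨p, q, hq, hpq⟩ := IsFractionRing.div_surjective (A := P) κ
  have hq0 : Θ q ≠ 0 := (map_ne_zero_iff Θ hΘ).2 (nonZeroDivisors.ne_zero hq)
  have hqK : algebraMap P K q ≠ 0 := by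
    intro h0
    apply hq0
    rw [← hθ, h0, map_zero]
  have h1 : κ * algebraMap P K q = algebraMap P K p := by
    rw [← hpq, div_mul_cancel₀ _ hqK]
  have h2 := congrArg θ (congrArg D₀ h1)
  have h3 := congrArg D (congrArg θ h1)
  rw [hP, Derivation.leibniz, smul_eq_mul, smul_eq_mul, map_add, map_mul, map_mul, hP] at h2
  rw [map_mul, hDm] at h3
  rw [← h3] at h2
  have h4 : θ (algebraMap P K q) * θ (D₀ κ) = θ (algebraMap P K q) * D (θ κ) := by
    linear_combination h2
  exact mul_left_cancel₀ (by rw [hθ]; exact hq0) h4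

/-! ### series with coefficients in finitely generated rings -/

section fg

variable {Q : Type} [Field Q]

theorem zg_mono {T T' : Set Q} (h : T ⊆ T') : Zg T ≤ Zg T' := Subring.closure_mono h

theorem fg_add {u v : LaurentSeries Q} (hu : FG u) (hv : FG v) : FG (u + v) := by
  obtain ⟨T, hT, hu⟩ := hu
  obtain ⟨T', hT', hv⟩ := hv
  refine ⟨T ∪ T', hT.union hT', fun n => ?_⟩
  rw [HahnSeries.coeff_add]
  exact (Zg _).add_mem (zg_mono Set.subset_union_left (hu n))
    (zg_mono Set.subset_union_right (hv n))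

theorem fg_mul {u v : LaurentSeries Q} (hu : FG u) (hv : FG v) : FG (u * v) := by
  obtain ⟨T, hT, hu⟩ := hu
  obtain ⟨T', hT', hv⟩ := hv
  refine ⟨T ∪ T', hT.union hT', fun n => ?_⟩
  rw [HahnSeries.coeff_mul]
  exact (Zg _).sum_mem fun ij _ => (Zg _).mul_mem (zg_mono Set.subset_union_left (hu _))
    (zg_mono Set.subset_union_right (hv _))

theorem fg_C (b : Q) : FG (HahnSeries.C b : LaurentSeries Q) := by
  refine ⟨{b}, Set.finite_singleton b, fun n => ?_⟩
  by_cases hn : n = 0
  · subst hn
    rw [HahnSeries.C_apply, HahnSeries.coeff_single_same]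
    exact Subring.subset_closure rfl
  · rw [HahnSeries.C_apply, HahnSeries.coeff_single_of_ne hn]
    exact Subring.zero_mem _

theorem fg_inv (hinv : InvStmt) {u : LaurentSeries Q} (hu : FG u) : FG u⁻¹ := by
  by_cases h0 : u = 0
  · subst h0
    rw [inv_zero]
    exact ⟨∅, Set.finite_empty, fun n => by rw [HahnSeries.coeff_zero]; exact Subring.zero_mem _⟩
  obtain ⟨T, hT, hu⟩ := hu
  refine ⟨insert (u.leadingCoeff)⁻¹ T, hT.insert _, ?_⟩
  exact hinv Q (Zg _) u h0 (fun n => zg_mono (Set.subset_insert _ _) (hu n))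
    (Subring.subset_closure (Set.mem_insert _ _))

theorem fg_div (hinv : InvStmt) {u v : LaurentSeries Q} (hu : FG u) (hv : FG v) :
    FG (u / v) := by
  rw [div_eq_mul_inv]
  exact fg_mul hu (fg_inv hinv hv)

end fg

/-! ### the embedding into the Laurent series -/

section emb

variable (Q : Type) [Field Q] [Algebra (Polynomial ℂ) Q]

/-- constants -/
noncomputable def cst : ℂ →+* Q := (algebraMap (Polynomial ℂ) Q).comp Polynomial.C

/-- power series as Laurent series -/
noncomputable def emb : PowerSeries ℂ →+* LaurentSeries Q :=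
  (HahnSeries.ofPowerSeries ℤ Q).comp (PowerSeries.map (cst Q))

theorem emb_coeff (G : PowerSeries ℂ) (n : ℕ) :
    (emb Q G).coeff (n : ℤ) = cst Q (PowerSeries.coeff n G) := by
  rw [emb, RingHom.comp_apply, HahnSeries.ofPowerSeries_apply_coeff, PowerSeries.coeff_map]

theorem emb_coeff_neg (G : PowerSeries ℂ) {n : ℤ} (hn : n < 0) : (emb Q G).coeff n = 0 := by
  rw [emb, RingHom.comp_apply]
  have := PowerSeries.coeff_coe (PowerSeries.map (cst Q) G) n
  rw [if_pos hn] at this
  exact this

theorem fg_emb {G : PowerSeries ℂ}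
    (h : ∃ T : Set ℂ, T.Finite ∧ ∀ n, PowerSeries.coeff n G ∈ Zg T) : FG (emb Q G) := by
  obtain ⟨T, hT, h⟩ := h
  refine ⟨cst Q '' T, hT.image _, fun n => ?_⟩
  rcases lt_or_ge n 0 with hn | hn
  · rw [emb_coeff_neg Q G hn]
    exact Subring.zero_mem _
  · obtain ⟨k, rfl⟩ := Int.eq_ofNat_of_zero_le hn
    rw [emb_coeff]
    have h1 : cst Q (PowerSeries.coeff k G) ∈ (Subring.closure T).map (cst Q) := ⟨_, h k, rfl⟩
    rwa [RingHom.map_closure] at h1

variable (A : Subring (PowerSeries ℂ))

/-- polynomials over a ring of power series as Laurent series -/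
noncomputable def thP : Polynomial A →+* LaurentSeries Q :=
  Polynomial.eval₂RingHom ((emb Q).comp A.subtype)
    (HahnSeries.C (algebraMap (Polynomial ℂ) Q Polynomial.X))

theorem thP_C (G : A) : thP Q A (Polynomial.C G) = emb Q G := by
  simp [thP]

theorem thP_X : thP Q A Polynomial.X =
    HahnSeries.C (algebraMap (Polynomial ℂ) Q Polynomial.X) := by
  simp [thP]

theorem thP_coeff (p : Polynomial A) (n : ℕ) : (thP Q A p).coeff (n : ℤ) =
    algebraMap (Polynomial ℂ) Q (∑ j ∈ p.support,
      Polynomial.monomial j (PowerSeries.coeff n (p.coeff j : PowerSeries ℂ))) := by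
  classical
  induction p using Polynomial.induction_on' with
  | add p q hp hq =>
    rw [map_add, HahnSeries.coeff_add, hp, hq, ← map_add]
    congr 1
    ext j
    simp only [Polynomial.coeff_add, Polynomial.finsetSum_coeff, Polynomial.coeff_monomial,
      Finset.sum_ite_eq', Polynomial.mem_support_iff]
    have key : ∀ x : A, (if x ≠ 0 then PowerSeries.coeff n (x : PowerSeries ℂ) else 0) =
        PowerSeries.coeff n (x : PowerSeries ℂ) := by
      intro x
      split_ifs with h
      · rfl
      · rw [not_ne_iff] at h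
        rw [h, Subring.coe_zero, map_zero]
    have e1 : (if p.coeff j + q.coeff j ≠ 0 then PowerSeries.coeff n
        ((p.coeff j + q.coeff j : A) : PowerSeries ℂ) else 0) =
        PowerSeries.coeff n ((p.coeff j + q.coeff j : A) : PowerSeries ℂ) := key _
    have e2 := key (p.coeff j)
    have e3 := key (q.coeff j)
    rw [e1, e2, e3, Subring.coe_add, map_add]
  | monomial k a =>
    by_cases ha : a = 0
    · subst ha
      simp
    rw [Polynomial.support_monomial k ha, Finset.sum_singleton, Polynomial.coeff_monomial,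
      if_pos rfl, thP, Polynomial.coe_eval₂RingHom, Polynomial.eval₂_monomial, ← map_pow, mul_comm,
      HahnSeries.C_mul_eq_smul, HahnSeries.coeff_smul, smul_eq_mul,
      ← Polynomial.C_mul_X_pow_eq_monomial, map_mul, map_pow]
    change algebraMap (Polynomial ℂ) Q Polynomial.X ^ k * (emb Q a).coeff n = _
    rw [emb_coeff, mul_comm]
    rfl

theorem thP_injective [IsFractionRing (Polynomial ℂ) Q] : Function.Injective (thP Q A) := by
  rw [injective_iff_map_eq_zero]
  intro p hp
  ext j : 1
  apply Subtype.ext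
  ext n
  rw [Polynomial.coeff_zero, Subring.coe_zero, map_zero]
  have h1 := thP_coeff Q A p n
  rw [hp, HahnSeries.coeff_zero] at h1
  have h2 := (map_eq_zero_iff _ (IsFractionRing.injective (Polynomial ℂ) Q)).1 h1.symm
  by_cases hj : j ∈ p.support
  · have h3 := congrArg (fun q => Polynomial.coeff q j) h2
    simp only [Polynomial.finsetSum_coeff, Polynomial.coeff_monomial, Finset.sum_ite_eq',
      Polynomial.coeff_zero, if_pos hj] at h3
    exact h3
  · rw [Polynomial.notMem_support_iff.1 hj, Subring.coe_zero, map_zero]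

theorem fg_thP (hA : ∀ G ∈ A, ∃ T : Set ℂ, T.Finite ∧ ∀ n, PowerSeries.coeff n G ∈ Zg T)
    (p : Polynomial A) : FG (thP Q A p) := by
  induction p using Polynomial.induction_on with
  | C a =>
    rw [thP_C]
    exact fg_emb Q (hA a a.2)
  | add p q hp hq =>
    rw [map_add]
    exact fg_add hp hq
  | monomial n a h =>
    rw [pow_succ, ← mul_assoc, map_mul, thP_X]
    exact fg_mul h (fg_C _)

/-- the derivation on power series -/
theorem D_emb {δ : Derivation ℤ Q Q} (hδ : ∀ p : Polynomial ℂ, δ (algebraMap (Polynomial ℂ) Q p) =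
      algebraMap (Polynomial ℂ) Q (Polynomial.derivative p))
    {D : Derivation ℤ (LaurentSeries Q) (LaurentSeries Q)} {c : ℂ}
    (hD : ∀ (u : LaurentSeries Q) (n : ℤ), (D u).coeff n = δ (u.coeff n) +
      algebraMap (Polynomial ℂ) Q (Polynomial.C c) * n * u.coeff n) (G : PowerSeries ℂ) :
    D (emb Q G) = emb Q (PowerSeries.C c * (PowerSeries.X * PowerSeries.derivative ℂ G)) := by
  ext n
  rw [hD]
  rcases lt_or_ge n 0 with hn | hn
  · rw [emb_coeff_neg Q _ hn, emb_coeff_neg Q _ hn, map_zero, mul_zero, add_zero]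
  · obtain ⟨k, rfl⟩ := Int.eq_ofNat_of_zero_le hn
    rw [emb_coeff, emb_coeff, PowerSeries.coeff_C_mul]
    have h1 : PowerSeries.coeff k (PowerSeries.X * PowerSeries.derivative ℂ G) =
        k * PowerSeries.coeff k G := by
      cases k with
      | zero => simp
      | succ k =>
        rw [PowerSeries.coeff_succ_X_mul, PowerSeries.coeff_derivative]
        push_cast
        ring
    rw [h1]
    have h2 : δ (cst Q (PowerSeries.coeff k G)) = 0 := by
      rw [cst, RingHom.comp_apply, hδ, Polynomial.derivative_C, map_zero]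
    rw [h2, zero_add, map_mul, map_mul, map_natCast]
    push_cast
    rw [mul_assoc]
    rfl

theorem D_z {δ : Derivation ℤ Q Q} (hδ : ∀ p : Polynomial ℂ, δ (algebraMap (Polynomial ℂ) Q p) =
      algebraMap (Polynomial ℂ) Q (Polynomial.derivative p))
    {D : Derivation ℤ (LaurentSeries Q) (LaurentSeries Q)} {c : ℂ}
    (hD : ∀ (u : LaurentSeries Q) (n : ℤ), (D u).coeff n = δ (u.coeff n) +
      algebraMap (Polynomial ℂ) Q (Polynomial.C c) * n * u.coeff n) :
    D (HahnSeries.C (algebraMap (Polynomial ℂ) Q Polynomial.X)) = 1 := by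
  ext n
  rw [hD]
  by_cases hn : n = 0
  · subst hn
    rw [HahnSeries.C_apply, HahnSeries.coeff_single_same, hδ, Polynomial.derivative_X, map_one,
      Int.cast_zero, mul_zero, zero_mul, add_zero, HahnSeries.coeff_one, if_pos rfl]
  · rw [HahnSeries.C_apply, HahnSeries.coeff_single_of_ne hn, map_zero, mul_zero, add_zero,
      HahnSeries.coeff_one, if_neg hn]

end emb

/-! ### the field -/

theorem adm_C (ρ : ℝ) (b : ℂ) : Adm ρ (PowerSeries.C b) := by
  refine ⟨⟨{b}, Set.finite_singleton b, fun n => ?_⟩, fun r _ _ => ?_⟩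
  · rw [PowerSeries.coeff_C]
    split_ifs
    · exact Subring.subset_closure rfl
    · exact Subring.zero_mem _
  · refine summable_of_ne_finset_zero (s := {0}) fun n hn => ?_
    rw [Finset.mem_singleton] at hn
    rw [PowerSeries.coeff_C, if_neg hn, norm_zero, zero_mul]

theorem evE_C (c b z : ℂ) : evE c (PowerSeries.C b) z = b := by
  rw [evE, tsum_eq_single 0]
  · simp
  · intro n hn
    rw [PowerSeries.coeff_C, if_neg hn, zero_mul]

theorem field_73 (hev : EvStmt) (huq : UniqStmt) (hinv : InvStmt) : FieldStmt := by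
  intro ρ hρ c hc z₀ hz₀ Q _ _ _ δ hδ D hD Ω _ _ Δ ι hι hιΔ
  obtain ⟨A, hA, hAm, hAd, hAder⟩ := hev ρ hρ c hc
  have hopen : IsOpen {z : ℂ | ‖Complex.exp (c * z)‖ < ρ} :=
    isOpen_lt (by fun_prop) continuous_const
  have hnear : ∀ᶠ z in 𝓝 z₀, ‖Complex.exp (c * z)‖ < ρ := hopen.mem_nhds hz₀
  have han : ∀ G : A, AnalyticAt ℂ (evE c G) z₀ := fun G =>
    ((hAd G G.2).analyticOnNhd hopen) z₀ hz₀
  have hC : ∀ b : ℂ, PowerSeries.C b ∈ A := fun b => (hA _).2 (adm_C ρ b)
  have hevC : ∀ b : ℂ, evE c (PowerSeries.C b) = fun _ => b := fun b => by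
    funext z
    exact evE_C c b z
  let φ : A →+* Ω :=
    { toFun := fun G => ι (taylor z₀ (evE c G))
      map_one' := by
        have := hevC 1
        rw [map_one] at this
        rw [Subring.coe_one, this, taylor_const, map_one, map_one]
      map_mul' := by
        intro G G'
        rw [← map_mul, ← taylor_mul (han G) (han G')]
        congr 1
        refine taylor_congr ?_
        filter_upwards [hnear] with z hz
        exact (hAm G G.2 G' G'.2 z hz).2
      map_zero' := by
        have := hevC 0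
        rw [map_zero] at this
        rw [Subring.coe_zero, this, taylor_const, map_zero, map_zero]
      map_add' := by
        intro G G'
        rw [← map_add, ← taylor_add (han G) (han G')]
        congr 1
        refine taylor_congr ?_
        filter_upwards [hnear] with z hz
        exact (hAm G G.2 G' G'.2 z hz).1 }
  have hφ : ∀ G : A, φ G = ι (taylor z₀ (evE c G)) := fun _ => rfl
  set zz : Ω := ι (taylor z₀ fun w => w) with hzz
  have hid : AnalyticAt ℂ (fun w : ℂ => w) z₀ := analyticAt_id
  have hpow : ∀ k : ℕ, taylor z₀ (fun s => s ^ k) = (taylor z₀ fun s => s) ^ k := by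
    intro k
    induction k with
    | zero =>
      simp only [pow_zero]
      rw [taylor_const, map_one]
    | succ k ih =>
      simp only [pow_succ]
      rw [taylor_mul (hid.fun_pow k) hid, ih]
  let Φ : Polynomial A →+* Ω := Polynomial.eval₂RingHom φ zz
  have hterm : ∀ (p : Polynomial A) (j : ℕ),
      AnalyticAt ℂ (fun s => evE c (p.coeff j) s * s ^ j) z₀ := fun p j =>
    (han (p.coeff j)).mul (hid.fun_pow j)
  have hΦ : ∀ p : Polynomial A, Φ p = ι (taylor z₀ fun s =>
      ∑ j ∈ Finset.range (p.natDegree + 1), evE c (p.coeff j) s * s ^ j) := by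
    intro p
    have h2 : ∀ S : Finset ℕ, ∑ j ∈ S, φ (p.coeff j) * zz ^ j =
        ι (taylor z₀ fun s => ∑ j ∈ S, evE c (p.coeff j) s * s ^ j) := by
      intro S
      induction S using Finset.induction_on with
      | empty => simp only [Finset.sum_empty]; rw [taylor_const, map_zero, map_zero]
      | insert k S hk ih =>
        simp only [Finset.sum_insert hk]
        rw [ih, taylor_add (hterm p k) (Finset.analyticAt_fun_sum _ fun k _ => hterm p k),
          map_add, taylor_mul (han _) (hid.fun_pow k), hpow, map_mul, map_pow, hφ]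
    rw [← h2]
    exact Polynomial.eval₂_eq_sum_range _ _
  have hΦinj : Function.Injective Φ := by
    rw [injective_iff_map_eq_zero]
    intro p hp
    rw [hΦ] at hp
    have h1 := (map_eq_zero_iff ι hι).1 hp
    have h2 := eventually_zero_of_taylor
      (Finset.analyticAt_fun_sum _ fun k _ => hterm p k) h1
    have h3 := huq ρ hρ c hc (p.natDegree + 1) (fun j => (p.coeff j : PowerSeries ℂ))
      (fun j => (hA _).1 (p.coeff j).2) z₀ hz₀ h2
    ext j : 1
    apply Subtype.ext
    rw [Polynomial.coeff_zero, Subring.coe_zero]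
    rcases lt_or_ge j (p.natDegree + 1) with hj | hj
    · exact h3 j hj
    · rw [Polynomial.coeff_eq_zero_of_natDegree_lt (by omega), Subring.coe_zero]
  have hder : ∀ p : Polynomial A, ∃ p', Δ (Φ p) = Φ p' ∧ D (thP Q A p) = thP Q A p' := by
    have hmul : ∀ p q : Polynomial A, (∃ p', Δ (Φ p) = Φ p' ∧ D (thP Q A p) = thP Q A p') →
        (∃ p', Δ (Φ q) = Φ p' ∧ D (thP Q A q) = thP Q A p') →
        ∃ p', Δ (Φ (p * q)) = Φ p' ∧ D (thP Q A (p * q)) = thP Q A p' := by
      rintro p q ⟨p', h1, h2⟩ ⟨q', h3, h4⟩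
      refine ⟨p * q' + q * p', ?_, ?_⟩
      · rw [map_mul, Derivation.leibniz, h1, h3, map_add, map_mul, map_mul, smul_eq_mul,
          smul_eq_mul]
      · rw [map_mul, Derivation.leibniz, h2, h4, map_add, map_mul, map_mul, smul_eq_mul,
          smul_eq_mul]
    have hX : ∃ p', Δ (Φ Polynomial.X) = Φ p' ∧ D (thP Q A Polynomial.X) = thP Q A p' := by
      refine ⟨1, ?_, ?_⟩
      · have h1 : Φ Polynomial.X = zz := Polynomial.eval₂_X _ _
        rw [h1, hzz, hιΔ, ← taylor_deriv, map_one]
        have h2 : deriv (fun w : ℂ => w) = fun _ => 1 := by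
          funext w
          exact deriv_id w
        rw [h2, taylor_const, map_one, map_one]
      · rw [thP_X, D_z Q hδ hD, map_one]
    intro p
    induction p using Polynomial.induction_on with
    | C G =>
      have hmem : PowerSeries.X * PowerSeries.derivative ℂ (G : PowerSeries ℂ) ∈ A :=
        (hAder G G.2).1
      refine ⟨Polynomial.C ⟨_, A.mul_mem (hC c) hmem⟩, ?_, ?_⟩
      · have h1 : ∀ G : A, Φ (Polynomial.C G) = φ G := fun G => Polynomial.eval₂_C _ _
        rw [h1, h1, hφ, hφ, hιΔ, ← taylor_deriv]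
        congr 1
        refine taylor_congr ?_
        filter_upwards [hnear] with z hz
        rw [(hAder G G.2).2 z hz]
        change _ = evE c (PowerSeries.C c * _) z
        rw [(hAm _ (hC c) _ hmem z hz).2, evE_C]
      · rw [thP_C, thP_C, D_emb Q hδ hD]
    | add p q hp hq =>
      obtain ⟨p', h1, h2⟩ := hp
      obtain ⟨q', h3, h4⟩ := hq
      exact ⟨p' + q', by rw [map_add, map_add, h1, h3, map_add],
        by rw [map_add, map_add, h2, h4, map_add]⟩
    | monomial n a h =>
      rw [pow_succ, ← mul_assoc]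
      exact hmul _ _ h hX
  obtain ⟨hKΩ, D₀, θ, h1, h2, h3, h4⟩ := quot_field (Polynomial A)
    (FractionRing (Polynomial A)) Ω (LaurentSeries Q) Δ D
    (fun a b => by rw [Derivation.leibniz, smul_eq_mul, smul_eq_mul]) Φ (thP Q A) hΦinj
    (thP_injective Q A) hder
  classical
  refine ⟨FractionRing (Polynomial A), inferInstance, hKΩ, D₀, θ,
    algebraMap (Polynomial A) (FractionRing (Polynomial A)) Polynomial.X,
    (algebraMap (Polynomial A) (FractionRing (Polynomial A))).comp
      (Polynomial.C.comp ((PowerSeries.C (R := ℂ)).codRestrict A hC)),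
    fun G => if h : G ∈ A then
      algebraMap (Polynomial A) (FractionRing (Polynomial A)) (Polynomial.C ⟨G, h⟩) else 0,
    h3, ?_, h4, ?_, ?_, ?_, ?_, ?_⟩
  · intro κ
    obtain ⟨p, q, hq, hpq⟩ := IsFractionRing.div_surjective (A := Polynomial A) κ
    rw [← hpq, map_div₀, h2, h2]
    exact fg_div hinv (fg_thP Q A (fun G hG => ((hA G).1 hG).fg) p)
      (fg_thP Q A (fun G hG => ((hA G).1 hG).fg) q)
  · rw [h1]
    exact Polynomial.eval₂_X _ _
  · intro b
    rw [RingHom.comp_apply, h1, RingHom.comp_apply]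
    change Polynomial.eval₂ φ zz (Polynomial.C _) = _
    rw [Polynomial.eval₂_C, hφ]
    change ι (taylor z₀ (evE c (PowerSeries.C b))) = _
    rw [hevC, taylor_const]
    exact ι.commutes b
  · intro b
    rw [RingHom.comp_apply, h2, RingHom.comp_apply, thP_C]
    change emb Q (PowerSeries.C b) = _
    rw [emb, RingHom.comp_apply, PowerSeries.map_C, HahnSeries.ofPowerSeries_C]
    rfl
  · rw [h2, thP_X]
  · intro G hG
    have hG' := (hA G).2 hG
    change algebraMap (FractionRing (Polynomial A)) Ω (if h : G ∈ A then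
      algebraMap (Polynomial A) (FractionRing (Polynomial A)) (Polynomial.C ⟨G, h⟩) else 0) = _
    rw [dif_pos hG', h1]
    change Polynomial.eval₂ φ zz (Polynomial.C _) = _
    rw [Polynomial.eval₂_C, hφ]

end Pool.Agent.Lib.MP_1e09a3_nt.FE
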