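import Pool.Agent.Lib.MP_1e09a3_nt.FE.Stmts73
import Pool.Agent.Lib.MP_1e09a3_nt.NS

/-!
Points of finitely generated rings in positive characteristic; coefficients of the inverse of a
Laurent series; the derivation of the field of Laurent series over a differential field.
-/

namespace Pool.Agent.Lib.MP_1e09a3_nt.FE

theorem pi_16 : PiStmt := by
  intro Q _ _ T hT
  have hft : Algebra.FiniteType ℤ (Algebra.adjoin ℤ T) :=
    (Subalgebra.fg_iff_finiteType _).1 ⟨hT.toFinset, by simp⟩
  have h1 : ∃ p : ℕ, p.Prime ∧ ¬ IsUnit ((p : ℕ) : Algebra.adjoin ℤ T) := by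
    by_contra h
    push Not at h
    exact false_of_units (A := Algebra.adjoin ℤ T) h
  obtain ⟨p, hp, hu⟩ := h1
  obtain ⟨m, hm, hpm⟩ := Ideal.exists_le_maximal (Ideal.span {((p : ℕ) : Algebra.adjoin ℤ T)})
    (by rwa [Ne, Ideal.span_singleton_eq_top])
  let := Ideal.Quotient.field m
  have : Fact p.Prime := ⟨hp⟩
  have h0 : ((p : ℕ) : Algebra.adjoin ℤ T ⧸ m) = 0 := by
    rw [← map_natCast (Ideal.Quotient.mk m), Ideal.Quotient.eq_zero_iff_mem]
    exact hpm (Ideal.mem_span_singleton_self _)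
  have : CharP (Algebra.adjoin ℤ T ⧸ m) p := by
    obtain ⟨q, hq⟩ := CharP.exists (Algebra.adjoin ℤ T ⧸ m)
    have h2 : q ∣ p := (CharP.cast_eq_zero_iff _ q p).1 h0
    rcases (Nat.dvd_prime hp).1 h2 with h3 | h3
    · subst h3
      exact absurd rfl (CharP.char_ne_one (Algebra.adjoin ℤ T ⧸ m) 1)
    · rwa [← h3]
  have hle : ∀ x : Zg T, (x : Q) ∈ Algebra.adjoin ℤ T := by
    intro x
    have : Zg T ≤ (Algebra.adjoin ℤ T).toSubring := by
      rw [Subring.closure_le]
      exact Algebra.subset_adjoin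
    exact this x.2
  let i : Zg T →+* Algebra.adjoin ℤ T :=
    { toFun := fun x => ⟨x, hle x⟩
      map_one' := rfl
      map_mul' := fun _ _ => rfl
      map_zero' := rfl
      map_add' := fun _ _ => rfl }
  exact ⟨p, Algebra.adjoin ℤ T ⧸ m, inferInstance, inferInstance, inferInstance,
    ⟨(Ideal.Quotient.mk m).comp i⟩⟩

theorem inv_16 : InvStmt := by
  intro Q _ B u hu hB hl
  by_contra hcon
  push Not at hcon
  set w := u⁻¹ with hw
  have huw : u * w = 1 := mul_inv_cancel₀ hu
  set S : Set ℤ := {n | w.coeff n ∉ B} with hSdef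
  have hS : S ⊆ w.support := by
    intro n hn h0
    exact hn (h0 ▸ B.zero_mem)
  have hSwf : S.IsWF := (w.isPWO_support.mono hS).isWF
  have hSne : S.Nonempty := hcon
  set m := hSwf.min hSne with hm
  have hmS : m ∈ S := hSwf.min_mem hSne
  have hlt : ∀ j < m, w.coeff j ∈ B := by
    intro j hj
    by_contra hj'
    exact hSwf.not_lt_min hSne hj' hj
  apply hmS
  set v := u.order with hv
  have hlc : u.leadingCoeff = u.coeff v := by
    rw [HahnSeries.leadingCoeff_eq]
  have hlc0 : u.coeff v ≠ 0 := by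
    rw [← hlc]
    exact HahnSeries.leadingCoeff_ne_zero.2 hu
  have h1 : (u * w).coeff (v + m) ∈ B := by
    rw [huw, HahnSeries.coeff_one]
    split_ifs
    · exact B.one_mem
    · exact B.zero_mem
  rw [HahnSeries.coeff_mul] at h1
  have hmem : (v, m) ∈ Finset.antidiagonal u.isPWO_support w.isPWO_support (v + m) := by
    rw [Finset.mem_antidiagonal]
    exact ⟨hlc0, hS hmS, rfl⟩
  rw [← Finset.add_sum_erase _ _ hmem] at h1
  have h2 : ∑ ij ∈ (Finset.antidiagonal u.isPWO_support w.isPWO_support (v + m)).erase (v, m),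
      u.coeff ij.1 * w.coeff ij.2 ∈ B := by
    refine B.sum_mem fun ij hij => ?_
    rw [Finset.mem_erase, Finset.mem_antidiagonal] at hij
    obtain ⟨hne, hi, -, hsum⟩ := hij
    refine B.mul_mem (hB _) (hlt _ ?_)
    have h3 : v ≤ ij.1 := HahnSeries.order_le_of_coeff_ne_zero hi
    rcases lt_or_eq_of_le h3 with h4 | h4
    · omega
    · exfalso
      apply hne
      ext
      · exact h4.symm
      · show ij.2 = m
        omega
  have h3 : u.coeff v * w.coeff m ∈ B := by
    have := B.sub_mem h1 h2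
    simpa using this
  have h4 : w.coeff m = (u.leadingCoeff)⁻¹ * (u.coeff v * w.coeff m) := by
    rw [hlc, inv_mul_cancel_left₀ hlc0]
  rw [h4]
  exact B.mul_mem hl h3

theorem der_16 : DerStmt := by
  intro Q _ δ c hc
  have hsup : ∀ u : LaurentSeries Q,
      (Function.support fun n : ℤ => δ (u.coeff n) + c * n * u.coeff n) ⊆ u.support := by
    intro u n hn h0
    apply hn
    show δ (u.coeff n) + c * n * u.coeff n = 0
    rw [h0, map_zero, mul_zero, add_zero]
  let f : LaurentSeries Q → LaurentSeries Q := fun u =>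
    ⟨fun n => δ (u.coeff n) + c * n * u.coeff n, u.isPWO_support.mono (hsup u)⟩
  have hf : ∀ u n, (f u).coeff n = δ (u.coeff n) + c * n * u.coeff n := fun _ _ => rfl
  have hadd : ∀ u v, f (u + v) = f u + f v := by
    intro u v
    ext n
    rw [HahnSeries.coeff_add, hf, hf, hf, HahnSeries.coeff_add, map_add]
    ring
  refine ⟨Derivation.mk' (@LinearMap.mk ℤ ℤ _ _ _ _ _ _ _ Algebra.toModule _ (AddHom.mk f hadd) ?_) ?_,
    fun u n => rfl⟩
  · intro z u
    have := map_zsmul (AddMonoidHom.mk' f hadd) z u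
    simpa only [AddMonoidHom.mk'_apply, eq_intCast, zsmul_eq_mul, Algebra.smul_def,
      RingHom.id_apply, algebraMap_int_eq, Int.cast_id] using this
  intro u v
  ext n
  have e0 : (f (u * v)).coeff n = δ ((u * v).coeff n) + c * n * (u * v).coeff n := rfl
  have e1 : (u • f v).coeff n = ∑ ij ∈ Finset.antidiagonal u.isPWO_support v.isPWO_support n,
      u.coeff ij.1 * (δ (v.coeff ij.2) + c * ij.2 * v.coeff ij.2) := by
    rw [smul_eq_mul, HahnSeries.coeff_mul_right' (y := f v) v.isPWO_support (hsup v)]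
  have e2 : (v • f u).coeff n = ∑ ij ∈ Finset.antidiagonal u.isPWO_support v.isPWO_support n,
      (δ (u.coeff ij.1) + c * ij.1 * u.coeff ij.1) * v.coeff ij.2 := by
    rw [smul_eq_mul, mul_comm, HahnSeries.coeff_mul_left' (x := f u) u.isPWO_support (hsup u)]
  show (f (u * v)).coeff n = (u • f v + v • f u).coeff n
  rw [e0, HahnSeries.coeff_add, e1, e2, HahnSeries.coeff_mul, map_sum, Finset.mul_sum,
    ← Finset.sum_add_distrib, ← Finset.sum_add_distrib]
  refine Finset.sum_congr rfl fun ij hij => ?_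
  rw [Finset.mem_antidiagonal] at hij
  obtain ⟨-, -, hsum⟩ := hij
  rw [Derivation.leibniz, smul_eq_mul, smul_eq_mul, ← hsum]
  push_cast
  ring

end Pool.Agent.Lib.MP_1e09a3_nt.FE
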