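import Pool.Agent.Lib.MP_1e09a3_nt.FE.Ev96

/-!
MP_1e09a3_nt, Fourier expansions, module F4: uniqueness.
-/

set_option autoImplicit false

open scoped PowerSeries Topology
open Filter

namespace Pool.Agent.Lib.MP_1e09a3_nt.FE

/-- a power series which vanishes on a punctured disc is zero -/
theorem ps_zero96 (ρ : ℝ) (hρ : 0 < ρ) (n : ℕ) : ∀ a : ℕ → ℂ,
    (∀ r : ℝ, 0 < r → r < ρ → Summable fun n => ‖a n‖ * r ^ n) →
    (∀ w : ℂ, w ≠ 0 → ‖w‖ < ρ → ∑' n, a n * w ^ n = 0) → a n = 0 := by
  induction n with
  | zero =>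
    intro a ha hz
    set r := ρ / 2 with hr
    have hr0 : 0 < r := by positivity
    have hrρ : r < ρ := by
      rw [hr]
      linarith
    have hc : ContinuousOn (fun w : ℂ => ∑' n, a n * w ^ n) (Metric.ball 0 r) := by
      refine continuousOn_tsum (fun n => by fun_prop) (ha r hr0 hrρ) fun n w hw => ?_
      rw [Metric.mem_ball, dist_zero_right] at hw
      rw [norm_mul, norm_pow]
      gcongr
    have hc0 : ContinuousAt (fun w : ℂ => ∑' n, a n * w ^ n) 0 :=
      hc.continuousAt (Metric.ball_mem_nhds 0 hr0)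
    have h1 : Tendsto (fun w : ℂ => ∑' n, a n * w ^ n) (𝓝[≠] 0) (𝓝 (∑' n, a n * (0 : ℂ) ^ n)) :=
      hc0.tendsto.mono_left nhdsWithin_le_nhds
    have h2 : Tendsto (fun w : ℂ => ∑' n, a n * w ^ n) (𝓝[≠] 0) (𝓝 0) := by
      refine Tendsto.congr' ?_ tendsto_const_nhds
      have h3 : ∀ᶠ w : ℂ in 𝓝[≠] 0, w ∈ Metric.ball (0 : ℂ) r :=
        nhdsWithin_le_nhds (Metric.ball_mem_nhds 0 hr0)
      filter_upwards [h3, self_mem_nhdsWithin] with w hw hw0
      rw [Metric.mem_ball, dist_zero_right] at hw
      exact (hz w hw0 (hw.trans hrρ)).symm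
    have h3 := tendsto_nhds_unique h1 h2
    rw [tsum_eq_single 0] at h3
    · simpa using h3
    · intro n hn
      rw [zero_pow hn, mul_zero]
  | succ n ih =>
    intro a ha hz
    have h0 : a 0 = 0 := by
      -- the same argument
      set r := ρ / 2 with hr
      have hr0 : 0 < r := by positivity
      have hrρ : r < ρ := by
        rw [hr]
        linarith
      have hc : ContinuousOn (fun w : ℂ => ∑' n, a n * w ^ n) (Metric.ball 0 r) := by
        refine continuousOn_tsum (fun n => by fun_prop) (ha r hr0 hrρ) fun n w hw => ?_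
        rw [Metric.mem_ball, dist_zero_right] at hw
        rw [norm_mul, norm_pow]
        gcongr
      have hc0 : ContinuousAt (fun w : ℂ => ∑' n, a n * w ^ n) 0 :=
        hc.continuousAt (Metric.ball_mem_nhds 0 hr0)
      have h1 : Tendsto (fun w : ℂ => ∑' n, a n * w ^ n) (𝓝[≠] 0)
          (𝓝 (∑' n, a n * (0 : ℂ) ^ n)) := hc0.tendsto.mono_left nhdsWithin_le_nhds
      have h2 : Tendsto (fun w : ℂ => ∑' n, a n * w ^ n) (𝓝[≠] 0) (𝓝 0) := by
        refine Tendsto.congr' ?_ tendsto_const_nhds
        have h3 : ∀ᶠ w : ℂ in 𝓝[≠] 0, w ∈ Metric.ball (0 : ℂ) r :=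
          nhdsWithin_le_nhds (Metric.ball_mem_nhds 0 hr0)
        filter_upwards [h3, self_mem_nhdsWithin] with w hw hw0
        rw [Metric.mem_ball, dist_zero_right] at hw
        exact (hz w hw0 (hw.trans hrρ)).symm
      have h3 := tendsto_nhds_unique h1 h2
      rw [tsum_eq_single 0] at h3
      · simpa using h3
      · intro n hn
        rw [zero_pow hn, mul_zero]
    refine ih (fun m => a (m + 1)) ?_ ?_
    · intro r hr0 hrρ
      have h1 := (ha r hr0 hrρ)
      have h2 := ((summable_nat_add_iff 1).2 h1).mul_left (1 / r)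
      refine h2.congr fun m => ?_
      rw [pow_succ]
      field_simp
    · intro w hw0 hwρ
      have h1 := hz w hw0 hwρ
      have hs : Summable fun n => a n * w ^ n := by
        refine Summable.of_norm ?_
        refine (ha ‖w‖ (norm_pos_iff.2 hw0) hwρ).congr fun n => ?_
        rw [norm_mul, norm_pow]
      rw [hs.tsum_eq_zero_add, h0, zero_mul, zero_add] at h1
      have h2 : ∑' m, a (m + 1) * w ^ (m + 1) = w * ∑' m, a (m + 1) * w ^ m := by
        rw [← tsum_mul_left]
        refine tsum_congr fun m => ?_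
        rw [pow_succ]
        ring
      rw [h2] at h1
      exact (mul_eq_zero.1 h1).resolve_left hw0

/-- the half plane -/
theorem half_convex96 (c : ℂ) (ρ : ℝ) (hρ : 0 < ρ) :
    Convex ℝ {z : ℂ | ‖Complex.exp (c * z)‖ < ρ} := by
  have h : {z : ℂ | ‖Complex.exp (c * z)‖ < ρ} =
      (fun z : ℂ => (c * z).re) ⁻¹' (Set.Iio (Real.log ρ)) := by
    ext z
    rw [Set.mem_ofPred_eq, Complex.norm_exp, Set.mem_preimage, Set.mem_Iio,
      Real.lt_log_iff_exp_lt hρ]
  rw [h]
  have hl : IsLinearMap ℝ (fun z : ℂ => (c * z).re) := by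
    refine ⟨fun x y => ?_, fun t x => ?_⟩
    · rw [mul_add, Complex.add_re]
    · simp only [Complex.real_smul, smul_eq_mul]
      have : c * ((t : ℂ) * x) = (t : ℂ) * (c * x) := by ring
      rw [this, Complex.re_ofReal_mul]
  exact (convex_Iio (Real.log ρ)).is_linear_preimage hl

theorem uniq_96 : UniqStmt := by
  intro ρ hρ c hc J G hG z₀ hz₀ hF
  have hUo := isOpen_U96 c ρ
  set U : Set ℂ := {z : ℂ | ‖Complex.exp (c * z)‖ < ρ} with hU
  set F : ℂ → ℂ := fun z => ∑ j ∈ Finset.range J, evE c (G j) z * z ^ j with hFdef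
  have hdiff : DifferentiableOn ℂ F U := by
    intro z hz
    refine DifferentiableWithinAt.fun_sum fun j _ => ?_
    exact ((ev_deriv96 c (hG j) z hz).differentiableAt.mul
      (by fun_prop)).differentiableWithinAt
  have han : AnalyticOnNhd ℂ F U := hdiff.analyticOnNhd hUo
  have hpre : IsPreconnected U := (half_convex96 c ρ hρ).isPreconnected
  have hzero : Set.EqOn F 0 U := han.eqOn_zero_of_preconnected_of_eventuallyEq_zero hpre hz₀ hF
  -- the values of the coefficients
  have hval : ∀ z ∈ U, ∀ j < J, evE c (G j) z = 0 := by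
    intro z hz j hj
    set P : Polynomial ℂ := ∑ j ∈ Finset.range J,
      Polynomial.C (evE c (G j) z) * Polynomial.X ^ j with hP
    have hper : ∀ m : ℕ, Complex.exp (c * (z + m * (2 * Real.pi * Complex.I / c))) =
        Complex.exp (c * z) := by
      intro m
      have e : c * (z + m * (2 * Real.pi * Complex.I / c)) =
          c * z + m * (2 * Real.pi * Complex.I) := by
        field_simp
      rw [e, Complex.exp_add, Complex.exp_nat_mul, Complex.exp_two_pi_mul_I, one_pow, mul_one]
    have hroot : ∀ m : ℕ, P.eval (z + m * (2 * Real.pi * Complex.I / c)) = 0 := by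
      intro m
      have h1 : z + m * (2 * Real.pi * Complex.I / c) ∈ U := by
        rw [hU, Set.mem_ofPred_eq, hper]
        exact hz
      have h2 := hzero h1
      rw [hFdef] at h2
      rw [hP, Polynomial.eval_finsetSum]
      refine Eq.trans ?_ h2
      refine Finset.sum_congr rfl fun i _ => ?_
      rw [Polynomial.eval_mul, Polynomial.eval_C, Polynomial.eval_pow, Polynomial.eval_X]
      congr 1
      unfold evE
      rw [hper]
    have hP0 : P = 0 := by
      refine Polynomial.eq_zero_of_infinite_isRoot P ?_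
      refine Set.infinite_of_injective_forall_mem
        (f := fun m : ℕ => z + m * (2 * Real.pi * Complex.I / c)) ?_ hroot
      intro m m' h
      have h1 : (2 * Real.pi * Complex.I / c : ℂ) ≠ 0 := by
        refine div_ne_zero ?_ hc
        exact Complex.two_pi_I_ne_zero
      have h2 : (m : ℂ) * (2 * Real.pi * Complex.I / c) = m' * (2 * Real.pi * Complex.I / c) :=
        add_left_cancel h
      exact_mod_cast mul_right_cancel₀ h1 h2
    have h3 : P.coeff j = evE c (G j) z := by
      rw [hP, Polynomial.finsetSum_coeff]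
      simp only [Polynomial.coeff_C_mul, Polynomial.coeff_X_pow]
      rw [Finset.sum_eq_single j]
      · simp
      · intro i _ hi
        rw [if_neg (Ne.symm hi), mul_zero]
      · intro h
        exact absurd (Finset.mem_range.2 hj) h
    rw [← h3, hP0, Polynomial.coeff_zero]
  intro j hj
  ext n
  rw [map_zero]
  refine ps_zero96 ρ hρ n (fun n => PowerSeries.coeff n (G j)) ?_ ?_
  · intro r hr0 hrρ
    exact (hG j).conv r hr0.le hrρ
  · intro w hw0 hwρ
    have h1 : Complex.exp (c * (Complex.log w / c)) = w := by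
      rw [mul_div_cancel₀ _ hc, Complex.exp_log hw0]
    have h2 := hval (Complex.log w / c) (by
      rw [hU, Set.mem_ofPred_eq, h1]
      exact hwρ) j hj
    unfold evE at h2
    rw [h1] at h2
    exact h2

end Pool.Agent.Lib.MP_1e09a3_nt.FE
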