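import Pool.Agent.Lib.MP_1e09a3_nt.FE.Main73
import Pool.Agent.Lib.MP_1e09a3_nt.FE.Field73
import Pool.Agent.Lib.MP_1e09a3_nt.FE.Cz73
import Pool.Agent.Lib.MP_1e09a3_nt.FE.Ev96
import Pool.Agent.Lib.MP_1e09a3_nt.FE.Uniq96
import Pool.Agent.Lib.MP_1e09a3_nt.FE.Pi16
import Pool.Agent.Lib.MP_1e09a3_nt.FE.Core96
import Pool.Agent.Lib.MP_1e09a3_nt.CF.Field27
import Pool.Agent.Lib.MP_1e09a3_nt.CF.Trace49
import Pool.Agent.Lib.MP_1e09a3_nt.CF.TraceAlg96
import Pool.Agent.Lib.MP_1e09a3_nt.PSField

/-!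
Integral functions and Fourier expansions: final form.
-/

open scoped PowerSeries
open MvPolynomial Filter Topology

namespace Pool.Agent.Lib.MP_1e09a3_nt.FE

open CF

instance : CharZero (FractionRing (Polynomial ℂ)) :=
  charZero_of_injective_algebraMap
    (IsFractionRing.injective (Polynomial ℂ) (FractionRing (Polynomial ℂ)))

theorem fourier_algebraic (U : Set ℂ) (y : ℂ → ℂ) (hU : IsOpen U) (hconn : IsPreconnected U)
    (hy : IsIntegralOn U y) (c : ℂ) (hc : c ≠ 0) (ρ : ℝ) (hρ : 0 < ρ) (m : ℕ)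
    (G : Fin m → PowerSeries ℂ) (hG : ∀ i, Adm ρ (G i)) (V : Set ℂ) (hV : IsOpen V)
    (hVU : V ⊆ U) (hVρ : ∀ z ∈ V, ‖Complex.exp (c * z)‖ < ρ)
    (halg : IsAlgebraicIn V (expFun c G) y) : IsAlgebraicOn U y := by
  obtain ⟨D, hD⟩ := exists_psf_der
  obtain ⟨H, ⟨a, haV, hHa⟩, hH⟩ := halg
  obtain ⟨r, hr, hball⟩ := Metric.isOpen_iff.1 hV a haV
  exact fourier_main ev_96 der_16 cz_73 (core_96 pi_16) (field_73 ev_96 uniq_96 inv_16)
    (trace_49 retract_27) traceAlg_96 (FractionRing (Polynomial ℂ)) PSF D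
    (IsScalarTower.toAlgHom ℂ ℂ⟦X⟧ PSF) psf_injective hD U hU hconn y hy ρ hρ c hc m G hG
    (Metric.ball a r) Metric.isOpen_ball (convex_ball a r).isPreconnected (hball.trans hVU)
    (fun z hz => hVρ z (hball hz))
    ⟨H, ⟨a, Metric.mem_ball_self hr, hHa⟩, fun s hs => hH s (hball hs)⟩

theorem IsIntegralOn.mono {U V : Set ℂ} (h : V ⊆ U) {y : ℂ → ℂ} (hy : IsIntegralOn U y) :
    IsIntegralOn V y := by
  obtain ⟨N, x, ⟨hx, hint⟩, P, hP⟩ := hy
  refine ⟨N, x, ⟨fun i => (hx i).mono h, fun Q n => ?_⟩, P, fun z hz => hP z (h hz)⟩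
  obtain ⟨Q', hQ'⟩ := hint Q n
  exact ⟨Q', fun z hz => hQ' z (h hz)⟩

/-- A series `∑ a_n e^(cnz)` with coefficients in a finitely generated ring which is an integral
function on some nonempty open set is constant. -/
theorem fourier_const (c : ℂ) (hc : c ≠ 0) (ρ : ℝ) (hρ : 0 < ρ) (G : PowerSeries ℂ)
    (hG : Adm ρ G) (V : Set ℂ) (hV : IsOpen V) (hne : V.Nonempty)
    (hVρ : ∀ z ∈ V, ‖Complex.exp (c * z)‖ < ρ) (hint : IsIntegralOn V (evE c G)) :
    ∀ n, n ≠ 0 → PowerSeries.coeff n G = 0 := by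
  obtain ⟨a, haV⟩ := hne
  obtain ⟨r, hr, hball⟩ := Metric.isOpen_iff.1 hV a haV
  have hbρ : ∀ z ∈ Metric.ball a r, ‖Complex.exp (c * z)‖ < ρ := fun z hz => hVρ z (hball hz)
  have halg : IsAlgebraicOn (Metric.ball a r) (evE c G) := by
    refine fourier_algebraic (Metric.ball a r) (evE c G) Metric.isOpen_ball
      (convex_ball a r).isPreconnected (IsIntegralOn.mono hball hint) c hc ρ hρ 1 (fun _ => G)
      (fun _ => hG) (Metric.ball a r) Metric.isOpen_ball subset_rfl hbρ
      ⟨Polynomial.X - Polynomial.C (X 2), ⟨a, Metric.mem_ball_self hr, ?_⟩, fun s _ => ?_⟩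
    · rw [Polynomial.map_sub, Polynomial.map_X, Polynomial.map_C]
      exact Polynomial.X_sub_C_ne_zero _
    · rw [Polynomial.map_sub, Polynomial.map_X, Polynomial.map_C, eval_X, Polynomial.eval_sub,
        Polynomial.eval_X, Polynomial.eval_C]
      exact sub_self _
  obtain ⟨P, hP0, hP⟩ := halg
  set S : Set ℂ := {z : ℂ | ‖Complex.exp (c * z)‖ < ρ} with hS
  have hSo : IsOpen S := isOpen_U96 c ρ
  have hSc : IsPreconnected S := (half_convex96 c ρ hρ).isPreconnected
  have haS : a ∈ S := hVρ a haV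
  have hfan : AnalyticOnNhd ℂ (evE c G) S := by
    refine DifferentiableOn.analyticOnNhd (fun z hz => ?_) hSo
    exact (ev_deriv96 c hG z hz).differentiableAt.differentiableWithinAt
  have hPS : ∀ z ∈ S, eval ![z, evE c G z] P = 0 := by
    have hgan : ∀ b, ∀ w ∈ S, AnalyticAt ℂ (fun w => (![w, evE c G w] : Fin 2 → ℂ) b) w := by
      intro b w hw
      fin_cases b
      · exact analyticAt_id
      · exact hfan w hw
    have hQan : AnalyticOnNhd ℂ (fun w => eval ![w, evE c G w] P) S := by
      intro w hw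
      have := analyticAt_aeval (fun b => hgan b w hw) P
      simpa only [eval_eq_aeval'] using this
    have hloc : (fun w => eval ![w, evE c G w] P) =ᶠ[𝓝 a] 0 := by
      filter_upwards [Metric.ball_mem_nhds a hr] with z hz
      exact hP z hz
    exact fun z hz => hQan.eqOn_zero_of_preconnected_of_eventuallyEq_zero hSc haS hloc hz
  have hper : ∀ (z : ℂ) (k : ℕ), Complex.exp (c * (z + k * (2 * Real.pi * Complex.I / c))) =
      Complex.exp (c * z) := by
    intro z k
    have h1 : c * (z + k * (2 * Real.pi * Complex.I / c)) =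
        c * z + k * (2 * Real.pi * Complex.I) := by
      field_simp
    rw [h1, Complex.exp_add, Complex.exp_nat_mul_two_pi_mul_I, mul_one]
  have hω : (2 * Real.pi * Complex.I / c) ≠ 0 :=
    div_ne_zero Complex.two_pi_I_ne_zero hc
  have hall : ∀ z ∈ S, ∀ t : ℂ, eval ![t, evE c G z] P = 0 := by
    intro z hz
    set p : Polynomial ℂ := aeval ![Polynomial.X, Polynomial.C (evE c G z)] P with hp
    have hpev : ∀ t, p.eval t = eval ![t, evE c G z] P := by
      intro t
      have h1 : p.eval t = (Polynomial.evalRingHom t) (aeval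
        ![Polynomial.X, Polynomial.C (evE c G z)] P) := rfl
      rw [h1, aeval_def, hom_eval₂]
      have h2 : (Polynomial.evalRingHom t).comp (algebraMap ℂ (Polynomial ℂ)) = RingHom.id ℂ := by
        ext1 b
        simp
      rw [h2, ← eval₂_id]
      congr 1
      funext b
      fin_cases b
      · simp
      · simp
    have hp0 : p = 0 := by
      by_contra hne
      have hfin : {t | p.IsRoot t}.Finite := Polynomial.finite_setOfPred_isRoot hne
      have hinj : Function.Injective fun k : ℕ => z + k * (2 * Real.pi * Complex.I / c) := by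
        intro k l hkl
        have h1 : (k : ℂ) * (2 * Real.pi * Complex.I / c) = l * (2 * Real.pi * Complex.I / c) :=
          add_left_cancel hkl
        exact_mod_cast mul_right_cancel₀ hω h1
      have hinf : (Set.range fun k : ℕ => z + k * (2 * Real.pi * Complex.I / c)).Infinite :=
        Set.infinite_range_of_injective hinj
      refine hinf (hfin.subset ?_)
      rintro _ ⟨k, rfl⟩
      change p.eval _ = 0
      rw [hpev]
      have hmem : z + k * (2 * Real.pi * Complex.I / c) ∈ S := by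
        change ‖Complex.exp (c * _)‖ < ρ
        rw [hper]
        exact hz
      have h1 := hPS _ hmem
      have h2 : evE c G (z + k * (2 * Real.pi * Complex.I / c)) = evE c G z := by
        simp only [evE, hper]
      rwa [h2] at h1
    intro t
    rw [← hpev, hp0, Polynomial.eval_zero]
  -- the function is constant
  have hconst : ∀ z ∈ S, evE c G z = evE c G a := by
    by_contra hcon
    push Not at hcon
    obtain ⟨z, hz, hza⟩ := hcon
    have himg : IsPreconnected (evE c G '' S) := hSc.image _ hfan.continuousOn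
    have hinf : (evE c G '' S).Infinite :=
      himg.infinite_of_nontrivial ⟨_, ⟨z, hz, rfl⟩, _, ⟨a, haS, rfl⟩, hza⟩
    apply hP0
    refine funext_set (![Set.univ, evE c G '' S] : Fin 2 → Set ℂ) (fun b => ?_) fun x hx => ?_
    · fin_cases b
      · exact Set.infinite_univ
      · exact hinf
    · rw [map_zero]
      obtain ⟨w, hw, hwx⟩ : x 1 ∈ evE c G '' S := hx 1 (Set.mem_univ _)
      have h1 := hall w hw (x 0)
      rw [hwx] at h1
      have h2 : x = ![x 0, x 1] := by
        funext b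
        fin_cases b <;> rfl
      rw [h2]
      exact h1
  obtain ⟨A, hA, hAm, -, -⟩ := ev_96 ρ hρ c hc
  have hGA : G ∈ A := (hA G).2 hG
  have hCA : PowerSeries.C (-evE c G a) ∈ A := (hA _).2 (adm_C ρ _)
  have h1 := uniq_96 ρ hρ c hc 1 (fun _ => G + PowerSeries.C (-evE c G a))
    (fun _ => (hA _).1 (A.add_mem hGA hCA)) a haS (by
      filter_upwards [hSo.mem_nhds haS] with z hz
      rw [Finset.sum_range_one, pow_zero, mul_one, (hAm _ hGA _ hCA z hz).1, evE_C, hconst z hz,
        add_neg_cancel]) 0 one_pos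
  intro n hn
  have h2 := congrArg (PowerSeries.coeff n) h1
  rwa [map_add, map_zero, PowerSeries.coeff_C, if_neg hn, add_zero] at h2

end Pool.Agent.Lib.MP_1e09a3_nt.FE
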