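import Pool.Agent.Lib.MP_1e09a3_nt.CF.Stmts73
import Pool.Agent.Lib.MP_1e09a3_nt.Taylor

/-!
Expansions in powers of `e^(cz)` with coefficients in finitely generated rings: statements of the
modules.
-/

open scoped PowerSeries
open MvPolynomial

namespace Pool.Agent.Lib.MP_1e09a3_nt.FE

/-- the ring generated by a set -/
abbrev Zg {R : Type} [CommRing R] (T : Set R) : Subring R := Subring.closure T

/-- The coefficients of the Laurent series `u` lie in a finitely generated ring. -/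
def FG {Q : Type} [Field Q] (u : LaurentSeries Q) : Prop :=
  ∃ T : Set Q, T.Finite ∧ ∀ n, u.coeff n ∈ Zg T

/-- Finitely generated rings of characteristic zero have points in positive characteristic. -/
def PiStmt : Prop :=
  ∀ (Q : Type) [Field Q] [CharZero Q] (T : Set Q), T.Finite →
    ∃ (p : ℕ) (k : Type) (_ : Field k) (_ : CharP k p) (_ : Fact p.Prime), Nonempty (Zg T →+* k)

/-- The subring of Laurent series with coefficients in `B` is closed under the inversion of the
series whose lowest coefficient is invertible in `B`. -/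
def InvStmt : Prop :=
  ∀ (Q : Type) [Field Q] (B : Subring Q) (u : LaurentSeries Q), u ≠ 0 → (∀ n, u.coeff n ∈ B) →
    (u.leadingCoeff)⁻¹ ∈ B → ∀ n, (u⁻¹).coeff n ∈ B

/-- `E = e^(cz)`: the derivation of the field of Laurent series in `E` over a differential field:
`D(b E^n) = (δ b + c n b) E^n`. -/
def DerStmt : Prop :=
  ∀ (Q : Type) [Field Q] (δ : Derivation ℤ Q Q) (c : Q), δ c = 0 →
    ∃ D : Derivation ℤ (LaurentSeries Q) (LaurentSeries Q),
      ∀ (u : LaurentSeries Q) (n : ℤ), (D u).coeff n = δ (u.coeff n) + c * n * u.coeff n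

/-- A subring all of whose elements have divided derivatives in it. -/
def DivClosed {Q : Type} [Field Q] (δ : Derivation ℤ Q Q) (B : Subring Q) : Prop :=
  ∀ x ∈ B, ∀ n : ℕ, (⇑δ)^[n] x / (n.factorial : Q) ∈ B

/-- Every finitely generated subring is contained in one which is closed under the divided
derivatives. -/
def HasDivClosed {Q : Type} [Field Q] (δ : Derivation ℤ Q Q) : Prop :=
  ∀ T : Set Q, T.Finite → ∃ T' : Set Q, T'.Finite ∧ Zg T ≤ Zg T' ∧ DivClosed δ (Zg T')

/-- `ℂ(z)` with `d/dz` -/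
def CzStmt : Prop :=
  ∀ (Q : Type) [Field Q] [Algebra (Polynomial ℂ) Q] [IsFractionRing (Polynomial ℂ) Q],
    ∃ δ : Derivation ℤ Q Q,
      (∀ p : Polynomial ℂ, δ (algebraMap (Polynomial ℂ) Q p) =
        algebraMap (Polynomial ℂ) Q (Polynomial.derivative p)) ∧ HasDivClosed δ

/-- The core: let `K` be a differential field embedded in the Laurent series such that the
coefficients of each element lie in a finitely generated ring, and let `t ∈ K` be an element whose
divided derivatives lie in a finitely generated subring of a finite extension of `K`. Then `t` has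
only the coefficient of `E^0`. -/
def CoreStmt : Prop :=
  ∀ (Q : Type) [Field Q] [CharZero Q] (δ : Derivation ℤ Q Q) (c : Q), c ≠ 0 → δ c = 0 →
    HasDivClosed δ → ∀ (D : Derivation ℤ (LaurentSeries Q) (LaurentSeries Q)),
    (∀ (u : LaurentSeries Q) (n : ℤ), (D u).coeff n = δ (u.coeff n) + c * n * u.coeff n) →
    ∀ (K K' : Type) [Field K] [Field K'] [Algebra K K'] [Module.Finite K K']
      (θ : K →+* LaurentSeries Q), (∀ κ, FG (θ κ)) →
    ∀ (D₀ : Derivation ℤ K K), (∀ κ, θ (D₀ κ) = D (θ κ)) →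
    ∀ (t : K) (r : ℕ) (x : Fin r → K'),
    (∀ n : ℕ, algebraMap K K' ((⇑D₀)^[n] t) / (n.factorial : K') ∈
      Algebra.adjoin ℤ (Set.range x)) → ∀ n : ℤ, n ≠ 0 → (θ t).coeff n = 0

/-! ### convergent expansions -/

/-- power series with coefficients in a finitely generated subring of `ℂ`, convergent for
`|E| < ρ` -/
structure Adm (ρ : ℝ) (G : PowerSeries ℂ) : Prop where
  fg : ∃ T : Set ℂ, T.Finite ∧ ∀ n, PowerSeries.coeff n G ∈ Zg T
  conv : ∀ r : ℝ, 0 ≤ r → r < ρ → Summable fun n => ‖PowerSeries.coeff n G‖ * r ^ n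

/-- the function `∑ a_n e^(cnz)` -/
noncomputable def evE (c : ℂ) (G : PowerSeries ℂ) (z : ℂ) : ℂ :=
  ∑' n : ℕ, PowerSeries.coeff n G * Complex.exp (c * z) ^ n

/-- The admissible series form a ring closed under `E d/dE`, and the evaluation is a homomorphism
to the holomorphic functions on `|e^(cz)| < ρ`. -/
def EvStmt : Prop :=
  ∀ (ρ : ℝ), 0 < ρ → ∀ (c : ℂ), c ≠ 0 → ∃ A : Subring (PowerSeries ℂ),
    (∀ G, G ∈ A ↔ Adm ρ G) ∧
    (∀ G ∈ A, ∀ G' ∈ A, ∀ z, ‖Complex.exp (c * z)‖ < ρ →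
      evE c (G + G') z = evE c G z + evE c G' z ∧ evE c (G * G') z = evE c G z * evE c G' z) ∧
    (∀ G ∈ A, DifferentiableOn ℂ (evE c G) {z | ‖Complex.exp (c * z)‖ < ρ}) ∧
    (∀ G ∈ A, PowerSeries.X * PowerSeries.derivative ℂ G ∈ A ∧
      ∀ z, ‖Complex.exp (c * z)‖ < ρ →
        deriv (evE c G) z = c * evE c (PowerSeries.X * PowerSeries.derivative ℂ G) z)

/-- Uniqueness: a polynomial in `z` whose coefficients are admissible series vanishes as a function
near one point only if it is zero. -/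
def UniqStmt : Prop :=
  ∀ (ρ : ℝ), 0 < ρ → ∀ (c : ℂ), c ≠ 0 → ∀ (J : ℕ) (G : ℕ → PowerSeries ℂ),
    (∀ j, Adm ρ (G j)) → ∀ z₀, ‖Complex.exp (c * z₀)‖ < ρ →
    (∀ᶠ z in nhds z₀, ∑ j ∈ Finset.range J, evE c (G j) z * z ^ j = 0) →
    ∀ j < J, G j = 0

/-- The differential field `K` of the quotients of polynomials in `z` with admissible series as
coefficients, with its two embeddings: Taylor series at `z₀`, and Laurent series in `E`. -/
def FieldStmt : Prop :=
  ∀ (ρ : ℝ), 0 < ρ → ∀ (c : ℂ), c ≠ 0 → ∀ z₀ : ℂ, ‖Complex.exp (c * z₀)‖ < ρ →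
    ∀ (Q : Type) [Field Q] [Algebra (Polynomial ℂ) Q] [IsFractionRing (Polynomial ℂ) Q]
      (δ : Derivation ℤ Q Q), (∀ p : Polynomial ℂ, δ (algebraMap (Polynomial ℂ) Q p) =
      algebraMap (Polynomial ℂ) Q (Polynomial.derivative p)) →
    ∀ (D : Derivation ℤ (LaurentSeries Q) (LaurentSeries Q)),
    (∀ (u : LaurentSeries Q) (n : ℤ), (D u).coeff n = δ (u.coeff n) +
      algebraMap (Polynomial ℂ) Q (Polynomial.C c) * n * u.coeff n) →
    ∀ (Ω : Type) [Field Ω] [Algebra ℂ Ω] (Δ : Derivation ℤ Ω Ω) (ι : ℂ⟦X⟧ →ₐ[ℂ] Ω),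
    Function.Injective ι → (∀ g, Δ (ι g) = ι (PowerSeries.derivative ℂ g)) →
    ∃ (K : Type) (_ : Field K) (_ : Algebra K Ω) (D₀ : Derivation ℤ K K)
      (θ : K →+* LaurentSeries Q) (z : K) (C : ℂ →+* K) (g : PowerSeries ℂ → K),
      (∀ κ, algebraMap K Ω (D₀ κ) = Δ (algebraMap K Ω κ)) ∧ (∀ κ, FG (θ κ)) ∧
      (∀ κ, θ (D₀ κ) = D (θ κ)) ∧ algebraMap K Ω z = ι (taylor z₀ fun w => w) ∧
      (∀ a : ℂ, algebraMap K Ω (C a) = algebraMap ℂ Ω a) ∧
      (∀ a : ℂ, θ (C a) = HahnSeries.C (algebraMap (Polynomial ℂ) Q (Polynomial.C a))) ∧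
      θ z = HahnSeries.C (algebraMap (Polynomial ℂ) Q Polynomial.X) ∧
      ∀ G, Adm ρ G → algebraMap K Ω (g G) = ι (taylor z₀ (evE c G))

end Pool.Agent.Lib.MP_1e09a3_nt.FE
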