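import Pool.Agent.Lib.MP_1e09a3_nt.FE.Aux73
import Pool.Agent.Lib.MP_1e09a3_nt.FE.Stmts73
import Pool.Agent.Lib.MP_1e09a3_nt.CF.Front73

/-!
Integral functions with Fourier expansions: assembly.
-/

set_option linter.style.haveILetI false

open scoped PowerSeries
open Filter Topology MvPolynomial

namespace Pool.Agent.Lib.MP_1e09a3_nt.FE

open CF

/-- The functions `z`, `e^(cz)`, `f_1, …, f_m`, where `f_i = ∑ a_n e^(cnz)` for the power series
`G i = ∑ a_n X^n`. -/
noncomputable def expFun {m : ℕ} (c : ℂ) (G : Fin m → PowerSeries ℂ) :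
    Fin (m + 2) → ℂ → ℂ :=
  Fin.cons (fun z => z) (Fin.cons (fun z => Complex.exp (c * z)) fun i => evE c (G i))

theorem adm_X (ρ : ℝ) : Adm ρ (PowerSeries.X : PowerSeries ℂ) := by
  refine ⟨⟨∅, Set.finite_empty, fun n => ?_⟩, fun r _ _ => ?_⟩
  · rw [PowerSeries.coeff_X]
    split_ifs
    · exact Subring.one_mem _
    · exact Subring.zero_mem _
  · refine summable_of_ne_finset_zero (s := {1}) fun n hn => ?_
    rw [Finset.mem_singleton] at hn
    rw [PowerSeries.coeff_X, if_neg hn, norm_zero, zero_mul]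

theorem evE_X (c z : ℂ) : evE c PowerSeries.X z = Complex.exp (c * z) := by
  rw [evE, tsum_eq_single 1]
  · simp
  · intro n hn
    rw [PowerSeries.coeff_X, if_neg hn, zero_mul]

theorem fourier_main (hev : EvStmt) (hder : DerStmt) (hcz : CzStmt) (hcore : FE.CoreStmt)
    (hfield : FieldStmt) (htr : TraceStmt) (hta : TraceAlgStmt)
    (Q : Type) [Field Q] [CharZero Q] [Algebra (Polynomial ℂ) Q] [IsFractionRing (Polynomial ℂ) Q]
    (Ω : Type) [Field Ω] [Algebra ℂ Ω]
    (D : Derivation ℂ Ω Ω) (ι : ℂ⟦X⟧ →ₐ[ℂ] Ω) (hιinj : Function.Injective ι)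
    (hιD : ∀ g, D (ι g) = ι (PowerSeries.derivative ℂ g))
    (U : Set ℂ) (hU : IsOpen U) (hconn : IsPreconnected U)
    (y : ℂ → ℂ) (hy : IsIntegralOn U y) (ρ : ℝ) (hρ : 0 < ρ) (c : ℂ) (hc : c ≠ 0) (m : ℕ)
    (G : Fin m → PowerSeries ℂ) (hG : ∀ i, Adm ρ (G i)) (V : Set ℂ) (hV : IsOpen V)
    (hVc : IsPreconnected V) (hVU : V ⊆ U) (hVρ : ∀ z ∈ V, ‖Complex.exp (c * z)‖ < ρ)
    (halg : IsAlgebraicIn V (expFun c G) y) : IsAlgebraicOn U y := by
  classical
  have hchar : CharZero Ω := charZero_of_injective_algebraMap (algebraMap ℂ Ω).injective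
  obtain ⟨H, ⟨a, haV, hHa⟩, hH⟩ := halg
  have hmemV : V ∈ 𝓝 a := hV.mem_nhds haV
  have haU : a ∈ U := hVU haV
  obtain ⟨A, hA, -, hAd, -⟩ := hev ρ hρ c hc
  obtain ⟨Δ, hΔapp⟩ := exists_int_der Ω D
  have hιΔ : ∀ g, Δ (ι g) = ι (PowerSeries.derivative ℂ g) := fun g => by rw [hΔapp, hιD]
  obtain ⟨δ, hδ, hδc⟩ := hcz Q
  set cQ : Q := algebraMap (Polynomial ℂ) Q (Polynomial.C c) with hcQ
  have hδcQ : δ cQ = 0 := by rw [hcQ, hδ, Polynomial.derivative_C, map_zero]
  have hcQ0 : cQ ≠ 0 := by
    rw [hcQ]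
    exact (map_ne_zero_iff _ (IsFractionRing.injective (Polynomial ℂ) Q)).2
      (Polynomial.C_ne_zero.2 hc)
  obtain ⟨DW, hDW⟩ := hder Q δ cQ hδcQ
  obtain ⟨K, _, _, D₀, θ, zK, C, g, hD₀, hFG, hθD, hzK, hCK, hCθ, hzθ, hg⟩ :=
    hfield ρ hρ c hc a (hVρ a haV) Q δ hδ DW hDW Ω Δ ι hιinj hιΔ
  have hcharK : CharZero K := by
    have := (algebraMap K Ω).injective
    exact ⟨fun x y hxy => by
      have h1 := congrArg (algebraMap K Ω) hxy
      rw [map_natCast, map_natCast] at h1
      exact_mod_cast h1⟩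
  -- the functions
  have hball : IsOpen {z : ℂ | ‖Complex.exp (c * z)‖ < ρ} :=
    isOpen_lt (by fun_prop) continuous_const
  have hFan : ∀ j, AnalyticOnNhd ℂ (expFun c G j) V := by
    intro j
    have hE : ∀ G', Adm ρ G' → AnalyticOnNhd ℂ (evE c G') V := fun G' hG' z hz =>
      ((hAd G' ((hA G').2 hG')).analyticOnNhd hball) z (hVρ z hz)
    refine Fin.cases ?_ (fun j => ?_) j
    · exact fun z _ => analyticAt_id
    · refine Fin.cases ?_ (fun j => ?_) j
      · intro z _
        change AnalyticAt ℂ (fun z => Complex.exp (c * z)) z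
        fun_prop
      · exact hE (G j) (hG j)
  set fh : Fin (m + 2) → Ω := fun j => ι (taylor a (expFun c G j)) with hfh
  obtain ⟨e, he⟩ : ∃ e : Fin (m + 2) → K, ∀ j, algebraMap K Ω (e j) = fh j := by
    refine ⟨Fin.cons zK (Fin.cons (g PowerSeries.X) fun i => g (G i)), fun j => ?_⟩
    refine Fin.cases ?_ (fun j => ?_) j
    · exact hzK
    · refine Fin.cases ?_ (fun j => ?_) j
      · change algebraMap K Ω (g PowerSeries.X) = ι (taylor a fun z => Complex.exp (c * z))
        rw [hg _ (adm_X ρ)]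
        congr 2
        funext z
        exact evE_X c z
      · exact hg (G j) (hG j)
  have haevC : ∀ p : MvPolynomial (Fin (m + 2)) ℂ,
      aeval fh p = ι (taylor a fun s => eval (fun j => expFun c G j s) p) := by
    intro p
    have h1 := taylor_aeval (fun i => hFan i a haV) p
    simp only [← eval_eq_aeval'] at h1
    rw [h1]
    exact (MvPolynomial.comp_aeval_apply (fun i => taylor a (expFun c G i)) ι p).symm
  have hKp : ∀ p : MvPolynomial (Fin (m + 2)) ℂ,
      algebraMap K Ω (eval₂ C e p) = aeval fh p := by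
    intro p
    rw [aeval_def, MvPolynomial.hom_eval₂]
    congr 1
    · ext1 b
      exact hCK b
    · funext j
      exact he j
  have hyan : AnalyticOnNhd ℂ y U := differentiableOn_of_isIntegralOn hU hy
  have hyV : AnalyticOnNhd ℂ y V := fun z hz => hyan z (hVU hz)
  set z : Ω := ι (taylor a fun w => w) with hz
  set w : Ω := ι (taylor a y) with hw
  have hpow : ∀ k : ℕ, taylor a (fun s => y s ^ k) = (taylor a y) ^ k := by
    intro k
    induction k with
    | zero =>
      simp only [pow_zero]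
      rw [taylor_const, map_one]
    | succ k ih =>
      simp only [pow_succ]
      rw [taylor_mul ((hyV a haV).fun_pow k) (hyV a haV), ih]
  have hwalg : IsAlgebraic K w := by
    refine ⟨∑ k ∈ H.support, Polynomial.monomial k (eval₂ C e (H.coeff k)), ?_, ?_⟩
    · intro h0
      obtain ⟨k, hk⟩ : ∃ k, eval (fun j => expFun c G j a) (H.coeff k) ≠ 0 := by
        by_contra hcon
        push Not at hcon
        apply hHa
        ext k
        rw [Polynomial.coeff_map, hcon k, Polynomial.coeff_zero]
      have hks : k ∈ H.support := by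
        rw [Polynomial.mem_support_iff]
        intro h1
        rw [h1, map_zero] at hk
        exact hk rfl
      have h1 := congrArg (fun p => Polynomial.coeff p k) h0
      simp only [Polynomial.finsetSum_coeff, Polynomial.coeff_monomial,
        Polynomial.coeff_zero] at h1
      rw [Finset.sum_eq_single k (fun b _ hb => if_neg hb) (fun h2 => absurd hks h2),
        if_pos rfl] at h1
      have h2 := hKp (H.coeff k)
      rw [h1, map_zero, haevC] at h2
      exact (map_ne_zero_iff ι hιinj).2
        (taylor_ne_zero hVc haV (analyticOnNhd_eval hFan _) ⟨a, haV, hk⟩) h2.symm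
    · rw [map_sum]
      have h1 : ∀ k, Polynomial.aeval w (Polynomial.monomial k (eval₂ C e (H.coeff k))) =
          ι (taylor a fun s => eval (fun j => expFun c G j s) (H.coeff k) * y s ^ k) := by
        intro k
        rw [Polynomial.aeval_monomial, hKp, haevC, hw,
          taylor_mul (analyticOnNhd_eval hFan _ a haV) ((hyV a haV).fun_pow k), map_mul,
          hpow, map_pow]
      have h2 : ∀ S : Finset ℕ, ∑ k ∈ S, ι (taylor a fun s =>
          eval (fun j => expFun c G j s) (H.coeff k) * y s ^ k) =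
          ι (taylor a fun s => ∑ k ∈ S, eval (fun j => expFun c G j s) (H.coeff k) *
            y s ^ k) := by
        intro S
        induction S using Finset.induction_on with
        | empty => simp only [Finset.sum_empty]; rw [taylor_const, map_zero, map_zero]
        | insert k S hk ih =>
          simp only [Finset.sum_insert hk]
          rw [ih, ← map_add, ← taylor_add]
          · exact (analyticOnNhd_eval hFan _ a haV).mul ((hyV a haV).fun_pow k)
          · exact Finset.analyticAt_fun_sum _ fun k _ =>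
              (analyticOnNhd_eval hFan _ a haV).mul ((hyV a haV).fun_pow k)
      simp only [h1]
      rw [h2]
      rw [taylor_eq_zero_of_eventually, map_zero]
      filter_upwards [hmemV] with s hs
      have h3 := hH s hs
      rw [Polynomial.eval_map, Polynomial.eval₂_eq_sum, Polynomial.sum_def] at h3
      exact h3
  have hwint : IsIntegral K w := hwalg.isIntegral
  set K₁ := IntermediateField.adjoin K {w} with hK₁
  have hfin : Module.Finite K K₁ := IntermediateField.adjoin.finiteDimensional hwint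
  obtain ⟨D₁, hD₁⟩ := exists_res_adjoin Ω K Δ D₀ hD₀ w hwint
  have hD₁₀ : ∀ x, D₁ (algebraMap K K₁ x) = algebraMap K K₁ (D₀ x) := by
    intro x
    apply (algebraMap K₁ Ω).injective
    rw [hD₁, ← IsScalarTower.algebraMap_apply, ← IsScalarTower.algebraMap_apply, hD₀]
  -- integrality
  obtain ⟨r, x, ⟨hx, hint⟩, P₀, hP₀⟩ := hy
  have hxan : ∀ i, AnalyticOnNhd ℂ (x i) V := fun i s hs =>
    (hx i).analyticAt (hU.mem_nhds (hVU hs))
  have hiter : ∀ (n : ℕ) (g : ℂ → ℂ), (⇑Δ)^[n] (ι (taylor a g)) =
      ι (taylor a (iteratedDeriv n g)) := by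
    intro n
    induction n with
    | zero => intro g; simp
    | succ n ih =>
      intro g
      rw [Function.iterate_succ_apply, hιΔ, ← taylor_deriv, ih (deriv g), iteratedDeriv_succ']
  have hR : ∀ k n : ℕ, (⇑Δ)^[n] (w ^ k) / (n.factorial : Ω) ∈
      Algebra.adjoin ℤ (Set.range fun i => ι (taylor a (x i))) := by
    intro k n
    obtain ⟨Q', hQ'⟩ := hint (P₀ ^ k) n
    have h1 : w ^ k = ι (taylor a fun w => aeval (fun i => x i w) (P₀ ^ k)) := by
      rw [taylor_aeval (fun i => hxan i a haV), map_pow, ← taylor_aeval (fun i => hxan i a haV)]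
      have h3 : taylor a y = taylor a fun s => aeval (fun i => x i s) P₀ := by
        refine taylor_congr ?_
        filter_upwards [hmemV] with s hs
        exact hP₀ _ (hVU hs)
      rw [hw, h3, map_pow]
    rw [h1, hiter n _]
    have h4 : taylor a (iteratedDeriv n (fun w => aeval (fun i => x i w) (P₀ ^ k))) =
        taylor a (fun s => (n.factorial : ℂ) * aeval (fun i => x i s) Q') := by
      refine taylor_congr ?_
      filter_upwards [hmemV] with s hs
      have h5 := hQ' s (hVU hs)
      rw [div_eq_iff (Nat.cast_ne_zero.2 (Nat.factorial_ne_zero n))] at h5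
      rw [h5, mul_comm]
    rw [h4, taylor_mul analyticAt_const (analyticAt_aeval (fun i => hxan i a haV) Q'),
      taylor_const, map_mul, taylor_aeval (fun i => hxan i a haV) Q']
    have h6 : ι (PowerSeries.C (n.factorial : ℂ)) = (n.factorial : Ω) := by
      rw [map_natCast, map_natCast]
    rw [h6, mul_div_cancel_left₀ _ (Nat.cast_ne_zero.2 (Nat.factorial_ne_zero n))]
    have h7 := ringHom_aeval_int (ι : ℂ⟦X⟧ →+* Ω) (fun i => taylor a (x i)) Q'
    change ((ι : ℂ⟦X⟧ →+* Ω) _) ∈ _
    rw [h7, Algebra.adjoin_range_eq_range_aeval]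
    exact ⟨Q', rfl⟩
  -- the traces
  set w₁ : K₁ := ⟨w, IntermediateField.mem_adjoin_simple_self K w⟩ with hw₁
  have hθC : ∀ p : Polynomial ℂ, θ (Polynomial.eval₂ C zK p) =
      HahnSeries.C (algebraMap (Polynomial ℂ) Q p) := by
    intro p
    induction p using Polynomial.induction_on' with
    | add p q hp hq => rw [Polynomial.eval₂_add, map_add, hp, hq, map_add, map_add]
    | monomial n b =>
      rw [Polynomial.eval₂_monomial, map_mul θ, map_pow θ, hCθ, hzθ,
        ← Polynomial.C_mul_X_pow_eq_monomial, map_mul (algebraMap (Polynomial ℂ) Q),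
        map_pow (algebraMap (Polynomial ℂ) Q), map_mul HahnSeries.C, map_pow HahnSeries.C]
  have hKC : ∀ p : Polynomial ℂ, algebraMap K Ω (Polynomial.eval₂ C zK p) ∈
      IntermediateField.adjoin ℂ {z} := by
    intro p
    rw [Polynomial.hom_eval₂]
    have h1 : (algebraMap K Ω).comp C = algebraMap ℂ Ω := by
      ext1 b
      exact hCK b
    rw [h1, hzK, ← Polynomial.aeval_def]
    exact (IntermediateField.algebra_adjoin_le_adjoin ℂ {z})
      (Algebra.adjoin_singleton_eq_range_aeval ℂ z ▸ ⟨p, rfl⟩)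
  have htrace : ∀ k : ℕ, IsAlgebraic (IntermediateField.adjoin ℂ {z})
      (algebraMap K Ω (Algebra.trace K K₁ (w₁ ^ k))) := by
    intro k
    obtain ⟨K', _, _, _, r', x', hx'⟩ := htr K K₁ Ω D₀ D₁ hD₁₀ r _ (w₁ ^ k) (by
      intro n
      rw [res_iterate hD₁, map_pow]
      exact hR k n)
    set t := Algebra.trace K K₁ (w₁ ^ k) with ht
    have h1 := hcore Q δ cQ hcQ0 hδcQ hδc DW hDW K K' θ hFG D₀ hθD t r' x' hx'
    have h2 : θ t = HahnSeries.C ((θ t).coeff 0) := by
      ext n
      by_cases hn : n = 0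
      · subst hn
        simp
      · rw [h1 n hn, HahnSeries.C_apply, HahnSeries.coeff_single_of_ne hn]
    obtain ⟨P, h, hh, hPh⟩ := IsFractionRing.div_surjective (A := Polynomial ℂ) ((θ t).coeff 0)
    have hh0 : h ≠ 0 := nonZeroDivisors.ne_zero hh
    have hhQ : algebraMap (Polynomial ℂ) Q h ≠ 0 :=
      (map_ne_zero_iff _ (IsFractionRing.injective (Polynomial ℂ) Q)).2 hh0
    have h3 : t * Polynomial.eval₂ C zK h = Polynomial.eval₂ C zK P := by
      apply θ.injective
      rw [map_mul, hθC, hθC, h2, ← map_mul, ← hPh, div_mul_cancel₀ _ hhQ]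
    have h4 : Polynomial.eval₂ C zK h ≠ 0 := by
      intro h5
      have h6 := hθC h
      rw [h5, map_zero] at h6
      exact hhQ (HahnSeries.C_injective (by rw [← h6, map_zero]))
    have h5 : algebraMap K Ω t ∈ IntermediateField.adjoin ℂ {z} := by
      have h6 : algebraMap K Ω t = algebraMap K Ω (Polynomial.eval₂ C zK P) *
          (algebraMap K Ω (Polynomial.eval₂ C zK h))⁻¹ := by
        rw [← h3, map_mul, mul_assoc, mul_inv_cancel₀ ((map_ne_zero _).2 h4), mul_one]
      rw [h6]
      exact (IntermediateField.adjoin ℂ {z}).mul_mem (hKC P)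
        ((IntermediateField.adjoin ℂ {z}).inv_mem (hKC h))
    exact isAlgebraic_algebraMap (⟨_, h5⟩ : IntermediateField.adjoin ℂ {z})
  have hwL := trace_finish hta Ω K w hwint z htrace
  obtain ⟨Q', hQne, hQ0⟩ := dep_of_isAlgebraic z w hwL
  -- conclusion
  refine ⟨Q', hQne, ?_⟩
  have hgan : ∀ b, ∀ w ∈ U, AnalyticAt ℂ (fun w => (![w, y w] : Fin 2 → ℂ) b) w := by
    intro b w hw
    fin_cases b
    · exact analyticAt_id
    · exact hyan w hw
  have hQan : AnalyticOnNhd ℂ (fun w => eval ![w, y w] Q') U := by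
    intro w hw
    have := analyticAt_aeval (fun b => hgan b w hw) Q'
    simpa only [eval_eq_aeval'] using this
  have hloc : (fun w => eval ![w, y w] Q') =ᶠ[𝓝 a] 0 := by
    refine eventually_zero_of_taylor (hQan a haU) ?_
    apply hιinj
    rw [map_zero, ← hQ0]
    have h1 := taylor_aeval (fun b => hgan b a haU) Q'
    simp only [← eval_eq_aeval'] at h1
    rw [h1]
    change ι (aeval (fun b => taylor a fun w => (![w, y w] : Fin 2 → ℂ) b) Q') = _
    rw [MvPolynomial.comp_aeval_apply]
    congr 2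
    funext b
    fin_cases b
    · rfl
    · rfl
  have hall := hQan.eqOn_zero_of_preconnected_of_eventuallyEq_zero hconn haU hloc
  intro w hw
  exact hall hw

end Pool.Agent.Lib.MP_1e09a3_nt.FE
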